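import Pool.Agent.H14Sort.Data

/-! # MP_be3412_lc: positivity of the function `E` -/

namespace Pool.Agent.H14Sort

/-- the list of boxes -/
def boxes : List (ℤ × ℤ × ℤ × ℤ) :=
[(0, 1, 0, 1), (1, 3, 0, 1), (1, 3, 1, 3), (3, 7, 0, 3), (3, 7, 3, 7), (7, 11, 0, 3), (7, 11, 3,
  7), (11, 13, 0, 1), (11, 13, 1, 3), (13, 15, 0, 1), (13, 15, 1, 3), (11, 13, 3, 5), (11, 13, 5,
  7), (13, 15, 3, 5), (13, 15, 5, 7), (7, 11, 7, 11), (11, 13, 7, 9), (11, 13, 9, 11), (13, 15, 7,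
  9), (13, 15, 9, 11), (11, 13, 11, 13), (13, 15, 11, 13), (13, 15, 13, 15)]

def chkBoxes : List (ℤ × ℤ × ℤ × ℤ) → Bool
  | [] => true
  | (i, j, k, l) :: r => chk2 15 (2 ^ 29100 + 1) (2 ^ 606 + 1) 50 gL gpL i j k l && chkBoxes r

theorem chkE : chkBoxes boxes = true := by decide +kernel

end Pool.Agent.H14Sort
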