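import Mathlib

/-! # MP_be3412_lc: comparator networks

Definitions, existence of sorting networks, and the splitting of a sorting network by a 0-1 input:
the comparators that compare two ones (two zeros) form a sorting network on the ones (zeros). -/

namespace Pool.Agent.H14Sort

section defs

variable {ι : Type*} [DecidableEq ι] {α : Type*} [LinearOrder α]

/-- The comparator `[ij]`, `c = (i, j)`: it replaces `x i` by `min (x i) (x j)` and `x j` by
`max (x i) (x j)`. -/
def cmp (c : ι × ι) (x : ι → α) : ι → α := fun k =>
  if k = c.1 then min (x c.1) (x c.2) else if k = c.2 then max (x c.1) (x c.2) else x k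

/-- The comparators of a network are applied from left to right. -/
def run : List (ι × ι) → (ι → α) → (ι → α)
  | [], x => x
  | c :: N, x => run N (cmp c x)

end defs

/-- `N` is a sorting network on `n` lines: every comparator has two different ends and every real
input is sorted. -/
def IsSorting {n : ℕ} (N : List (Fin n × Fin n)) : Prop :=
  (∀ c ∈ N, c.1 ≠ c.2) ∧ ∀ x : Fin n → ℝ, Monotone (run N x)

/-- The minimum size of a sorting network on `n` lines. -/
noncomputable def S (n : ℕ) : ℕ :=
  sInf {k | ∃ N : List (Fin n × Fin n), IsSorting N ∧ N.length = k}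

section basic

variable {ι : Type*} [DecidableEq ι] {α : Type*} [LinearOrder α] {β : Type*} [LinearOrder β]

theorem cmp_map {f : α → β} (hf : Monotone f) (c : ι × ι) (x : ι → α) :
    cmp c (fun i => f (x i)) = fun i => f (cmp c x i) := by
  funext k
  unfold cmp
  split_ifs
  · exact (hf.map_min).symm
  · exact (hf.map_max).symm
  · rfl

theorem run_map {f : α → β} (hf : Monotone f) (N : List (ι × ι)) (x : ι → α) :
    run N (fun i => f (x i)) = fun i => f (run N x i) := by
  induction N generalizing x with
  | nil => rfl
  | cons c N ih => rw [run, run, cmp_map hf, ih]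

theorem cmp_mono (c : ι × ι) : Monotone (cmp (α := α) c) := by
  intro x y h k
  unfold cmp
  split_ifs
  · exact min_le_min (h _) (h _)
  · exact max_le_max (h _) (h _)
  · exact h k

theorem run_mono (N : List (ι × ι)) : Monotone (run (α := α) N) := by
  induction N with
  | nil => exact monotone_id
  | cons c N ih => exact ih.comp (cmp_mono c)

theorem cmp_le {c : ι × ι} {x : ι → α} {B : α} (h : ∀ i, x i ≤ B) (k : ι) : cmp c x k ≤ B := by
  unfold cmp
  split_ifs
  · exact (min_le_left _ _).trans (h _)
  · exact max_le (h _) (h _)
  · exact h k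

theorem run_le {N : List (ι × ι)} {x : ι → α} {B : α} (h : ∀ i, x i ≤ B) (k : ι) :
    run N x k ≤ B := by
  induction N generalizing x with
  | nil => exact h k
  | cons c N ih => exact ih (x := cmp c x) (cmp_le h)

end basic

/-! ### existence -/

theorem run_append {ι : Type*} [DecidableEq ι] {α : Type*} [LinearOrder α]
    (N N' : List (ι × ι)) (x : ι → α) : run (N ++ N') x = run N' (run N x) := by
  induction N generalizing x with
  | nil => rfl
  | cons c N ih => exact ih (cmp c x)

theorem select_aux {n : ℕ} (L : List (Fin n)) (x : Fin (n + 1) → ℝ) :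
    let y := run (L.map fun i => (i.castSucc, Fin.last n)) x
    x (Fin.last n) ≤ y (Fin.last n) ∧ (∀ i ∈ L, y i.castSucc ≤ y (Fin.last n)) ∧
      ∀ i, i ∉ L → y i.castSucc = x i.castSucc := by
  induction L generalizing x with
  | nil => simp [run]
  | cons a L ih =>
    obtain ⟨h1, h2, h3⟩ := ih (cmp (a.castSucc, Fin.last n) x)
    have hne : (Fin.last n) ≠ a.castSucc := (Fin.castSucc_lt_last a).ne'
    have e1 : cmp (a.castSucc, Fin.last n) x (Fin.last n) =
        max (x a.castSucc) (x (Fin.last n)) := by simp [cmp, hne]
    have e2 : cmp (a.castSucc, Fin.last n) x a.castSucc =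
        min (x a.castSucc) (x (Fin.last n)) := by simp [cmp]
    rw [e1] at h1
    simp only [List.map_cons, run]
    refine ⟨(le_max_right _ _).trans h1, ?_, ?_⟩
    · intro i hi
      by_cases hL : i ∈ L
      · exact h2 i hL
      · rcases List.mem_cons.1 hi with rfl | h
        · rw [h3 i hL, e2]
          exact (min_le_left _ _).trans ((le_max_left _ _).trans h1)
        · exact absurd h hL
    · intro i hi
      rw [List.mem_cons, not_or] at hi
      rw [h3 i hi.2]
      have h5 : i.castSucc ≠ a.castSucc := fun h => hi.1 (Fin.castSucc_injective n h)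
      have h6 : i.castSucc ≠ Fin.last n := (Fin.castSucc_lt_last i).ne
      simp [cmp, h5, h6]

theorem run_castSucc {n : ℕ} (N : List (Fin n × Fin n)) (y : Fin (n + 1) → ℝ) :
    (∀ i : Fin n, run (N.map fun c => (c.1.castSucc, c.2.castSucc)) y i.castSucc =
      run N (fun i => y i.castSucc) i) ∧
    run (N.map fun c => (c.1.castSucc, c.2.castSucc)) y (Fin.last n) = y (Fin.last n) := by
  induction N generalizing y with
  | nil => simp [run]
  | cons c N ih =>
    have e1 : (fun i : Fin n => cmp (c.1.castSucc, c.2.castSucc) y i.castSucc) =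
        cmp c (fun i => y i.castSucc) := by
      funext i
      simp [cmp, Fin.castSucc_inj]
    have e2 : cmp (c.1.castSucc, c.2.castSucc) y (Fin.last n) = y (Fin.last n) := by
      have h1 : Fin.last n ≠ c.1.castSucc := (Fin.castSucc_lt_last _).ne'
      have h2 : Fin.last n ≠ c.2.castSucc := (Fin.castSucc_lt_last _).ne'
      simp [cmp, h1, h2]
    obtain ⟨h1, h2⟩ := ih (cmp (c.1.castSucc, c.2.castSucc) y)
    simp only [List.map_cons, run]
    refine ⟨fun i => ?_, ?_⟩
    · rw [h1, e1]
    · rw [h2, e2]

/-- sorting networks exist -/
theorem exists_sorting (n : ℕ) : ∃ N : List (Fin n × Fin n), IsSorting N := by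
  induction n with
  | zero => exact ⟨[], by simp, fun x i => i.elim0⟩
  | succ n ih =>
    obtain ⟨N, hN, hs⟩ := ih
    refine ⟨((List.finRange n).map fun i => (i.castSucc, Fin.last n)) ++
      N.map fun c => (c.1.castSucc, c.2.castSucc), ?_, ?_⟩
    · intro c hc
      rcases List.mem_append.1 hc with h | h
      · obtain ⟨i, _, rfl⟩ := List.mem_map.1 h
        exact (Fin.castSucc_lt_last i).ne
      · obtain ⟨d, hd, rfl⟩ := List.mem_map.1 h
        exact fun h => hN d hd (Fin.castSucc_injective n h)
    · intro x
      rw [run_append]
      obtain ⟨_, h2, _⟩ := select_aux (List.finRange n) x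
      set y := run ((List.finRange n).map fun i => (i.castSucc, Fin.last n)) x
      obtain ⟨h3, h4⟩ := run_castSucc N y
      intro i j hij
      refine Fin.lastCases (fun hij => ?_) (fun j hij => ?_) j hij
      · refine Fin.lastCases le_rfl (fun i => ?_) i
        rw [h3, h4]
        exact run_le (fun i => h2 i (List.mem_finRange i)) i
      · have hi : i ≠ Fin.last n := fun h => by
          rw [h] at hij
          exact absurd (hij.trans_lt (Fin.castSucc_lt_last j)) (lt_irrefl _)
        obtain ⟨i, rfl⟩ := Fin.exists_castSucc_eq.2 hi
        rw [h3, h3]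
        exact hs _ (Fin.castSucc_le_castSucc_iff.1 hij)

/-! ### collisions and restriction -/

section restrict

variable {ι : Type*} [DecidableEq ι]

/-- the number of comparators at which two different bits meet -/
def coll : List (ι × ι) → (ι → Bool) → ℕ
  | [], _ => 0
  | c :: N, x => (if x c.1 = x c.2 then 0 else 1) + coll N (cmp c x)

theorem cmp_eq_self {α : Type*} [LinearOrder α] {c : ι × ι} {x : ι → α} (h : x c.1 ≤ x c.2) :
    cmp c x = x := by
  funext k
  unfold cmp
  split_ifs with h1 h2
  · rw [h1, min_eq_left h]
  · rw [h2, max_eq_right h]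
  · rfl

theorem cmp_eq_swap {α : Type*} [LinearOrder α] {c : ι × ι} {x : ι → α} (h : x c.2 ≤ x c.1) :
    cmp c x = fun k => x (Equiv.swap c.1 c.2 k) := by
  funext k
  unfold cmp
  split_ifs with h1 h2
  · rw [h1, Equiv.swap_apply_left, min_eq_right h]
  · rw [h2, Equiv.swap_apply_right, max_eq_left h]
  · rw [Equiv.swap_apply_of_ne_of_ne h1 h2]

theorem coll_const {N : List (ι × ι)} {x : ι → Bool} (h : ∀ i j, x i = x j) : coll N x = 0 := by
  induction N with
  | nil => rfl
  | cons c N ih => rw [coll, if_pos (h _ _), cmp_eq_self (h _ _).le, ih]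

theorem restrict (N : List (ι × ι)) (hN : ∀ c ∈ N, c.1 ≠ c.2) (x : ι → Bool) :
    ∀ (z : ι → Bool) (τ : Equiv.Perm ι), (∀ l, z (τ l) = x l) →
    ∃ (τ' : Equiv.Perm ι) (M : (b : Bool) → List ({i // x i = b} × {i // x i = b})),
      (∀ l, run N z (τ' l) = x l) ∧
      N.length = coll N z + (M true).length + (M false).length ∧
      (∀ b, ∀ c ∈ M b, c.1 ≠ c.2) ∧
      ∀ Y : ι → ℝ, (∀ i j, z i = false → z j = true → Y i ≤ Y j) →
        ∀ (b : Bool) (l : {i // x i = b}),
          run N Y (τ' l) = run (M b) (fun l : {i // x i = b} => Y (τ l)) l := by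
  induction N with
  | nil =>
    intro z τ h
    exact ⟨τ, fun _ => [], h, by simp [coll], by simp, fun Y _ b l => rfl⟩
  | cons c N ih =>
    intro z τ h
    have hN' : ∀ c ∈ N, c.1 ≠ c.2 := fun d hd => hN d (List.mem_cons_of_mem _ hd)
    have hc : c.1 ≠ c.2 := hN c (List.mem_cons_self ..)
    by_cases hz : z c.1 = z c.2
    · -- same colour
      obtain ⟨τ', M, h1, h2, h3, h4⟩ := ih hN' z τ h
      have hx1 : x (τ.symm c.1) = z c.1 := by rw [← h, Equiv.apply_symm_apply]
      have hx2 : x (τ.symm c.2) = z c.1 := by rw [← h, Equiv.apply_symm_apply, hz]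
      let c' : (b : Bool) → z c.1 = b → {i // x i = b} × {i // x i = b} := fun b hb =>
        (⟨τ.symm c.1, hx1.trans hb⟩, ⟨τ.symm c.2, hx2.trans hb⟩)
      let M' : (b : Bool) → List ({i // x i = b} × {i // x i = b}) := fun b =>
        if hb : z c.1 = b then c' b hb :: M b else M b
      have hcz : cmp c z = z := cmp_eq_self hz.le
      refine ⟨τ', M', ?_, ?_, ?_, ?_⟩
      · intro l
        rw [run, hcz]
        exact h1 l
      · rw [List.length_cons, h2, coll, if_pos hz, hcz, zero_add]
        rcases hb : z c.1 with _ | _
        · simp only [M', hb, reduceCtorEq, dite_false, dite_true, List.length_cons]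
          omega
        · simp only [M', hb, reduceCtorEq, dite_false, dite_true, List.length_cons]
          omega
      · intro b d hd
        by_cases hb : z c.1 = b
        · simp only [M', hb, dite_true, List.mem_cons] at hd
          rcases hd with rfl | hd
          · intro he
            have := congrArg (fun s : {i // x i = b} => τ s.1) he
            simp only [c', Equiv.apply_symm_apply] at this
            exact hc this
          · exact h3 b d hd
        · simp only [M', hb, dite_false] at hd
          exact h3 b d hd
      · intro Y hY b l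
        have hY' : ∀ i j, z i = false → z j = true → cmp c Y i ≤ cmp c Y j := by
          intro i j hi hj
          rcases hb : z c.1 with _ | _
          · have hj1 : j ≠ c.1 := fun e => by rw [e, hb] at hj; exact absurd hj (by decide)
            have hj2 : j ≠ c.2 := fun e => by rw [e, ← hz, hb] at hj; exact absurd hj (by decide)
            have e1 : cmp c Y j = Y j := by simp [cmp, hj1, hj2]
            rw [e1]
            unfold cmp
            split_ifs
            · exact (min_le_left _ _).trans (hY _ _ hb hj)
            · exact max_le (hY _ _ hb hj) (hY _ _ (hz ▸ hb) hj)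
            · exact hY _ _ hi hj
          · have hi1 : i ≠ c.1 := fun e => by rw [e, hb] at hi; exact absurd hi (by decide)
            have hi2 : i ≠ c.2 := fun e => by rw [e, ← hz, hb] at hi; exact absurd hi (by decide)
            have e1 : cmp c Y i = Y i := by simp [cmp, hi1, hi2]
            rw [e1]
            unfold cmp
            split_ifs
            · exact le_min (hY _ _ hi hb) (hY _ _ hi (hz ▸ hb))
            · exact (hY _ _ hi hb).trans (le_max_left _ _)
            · exact hY _ _ hi hj
        rw [run, h4 (cmp c Y) hY' b l]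
        by_cases hb : z c.1 = b
        · simp only [M', hb, dite_true, run]
          congr 1
          funext k
          unfold cmp
          simp only [c', Subtype.ext_iff, Equiv.apply_symm_apply, Equiv.eq_symm_apply]
        · simp only [M', hb, dite_false]
          congr 1
          funext k
          have hk : z (τ k) = b := (h k).trans k.2
          have hk1 : τ k ≠ c.1 := fun e => hb (by rw [← e]; exact hk)
          have hk2 : τ k ≠ c.2 := fun e => hb (by rw [hz, ← e]; exact hk)
          simp [cmp, hk1, hk2]
    · rcases hb : z c.1 with _ | _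
      · -- no exchange
        have hb2 : z c.2 = true := by
          rcases hb2 : z c.2 with _ | _
          · exact absurd (hb.trans hb2.symm) hz
          · rfl
        have hcz : cmp c z = z := cmp_eq_self (by rw [hb, hb2]; decide)
        obtain ⟨τ', M, h1, h2, h3, h4⟩ := ih hN' z τ h
        refine ⟨τ', M, ?_, ?_, h3, ?_⟩
        · intro l
          rw [run, hcz]
          exact h1 l
        · rw [List.length_cons, h2, coll, if_neg hz, hcz]
          omega
        · intro Y hY b l
          rw [run, cmp_eq_self (hY _ _ hb hb2)]
          exact h4 Y hY b l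
      · -- exchange
        have hb2 : z c.2 = false := by
          rcases hb2 : z c.2 with _ | _
          · rfl
          · exact absurd (hb.trans hb2.symm) hz
        have hcz : cmp c z = fun k => z (Equiv.swap c.1 c.2 k) :=
          cmp_eq_swap (by rw [hb, hb2]; decide)
        obtain ⟨τ', M, h1, h2, h3, h4⟩ := ih hN' (cmp c z) (τ.trans (Equiv.swap c.1 c.2)) (by
          intro l
          rw [hcz]
          simp only [Equiv.trans_apply, Equiv.swap_apply_self]
          exact h l)
        refine ⟨τ', M, ?_, ?_, h3, ?_⟩
        · intro l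
          rw [run]
          exact h1 l
        · rw [List.length_cons, h2, coll, if_neg hz]
          omega
        · intro Y hY b l
          have hcY : cmp c Y = fun k => Y (Equiv.swap c.1 c.2 k) := cmp_eq_swap (hY _ _ hb2 hb)
          rw [run, h4 (cmp c Y) ?_ b l]
          · congr 1
            funext k
            rw [hcY]
            simp only [Equiv.trans_apply, Equiv.swap_apply_self]
          · intro i j hi hj
            rw [hcz] at hi hj
            rw [hcY]
            exact hY _ _ hi hj

/-- `N` sorts the inputs on the lines `ι`, ordered by `ρ` -/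
def SortsBy (N : List (ι × ι)) (ρ : ι → ℕ) : Prop :=
  Function.Injective ρ ∧ (∀ c ∈ N, c.1 ≠ c.2) ∧
    ∀ (x : ι → ℝ) (i j : ι), ρ i ≤ ρ j → run N x i ≤ run N x j

theorem restrict_sorts [Fintype ι] {N : List (ι × ι)} {ρ : ι → ℕ} (h : SortsBy N ρ)
    (x : ι → Bool) :
    ∃ (M : (b : Bool) → List ({i // x i = b} × {i // x i = b}))
      (ρ' : (b : Bool) → {i // x i = b} → ℕ),
      N.length = coll N x + (M true).length + (M false).length ∧ ∀ b, SortsBy (M b) (ρ' b) := by
  obtain ⟨hρ, hN, hs⟩ := h
  obtain ⟨τ', M, _, h2, h3, h4⟩ := restrict N hN x x (Equiv.refl ι) (fun l => rfl)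
  refine ⟨M, fun b l => ρ (τ' l), h2, fun b => ⟨?_, h3 b, ?_⟩⟩
  · intro l l' hl
    exact Subtype.ext (τ'.injective (hρ hl))
  · intro y i j hij
    set K : ℝ := ∑ l, |y l| with hK
    have hK1 : ∀ l, |y l| ≤ K := fun l =>
      Finset.single_le_sum (f := fun l => |y l|) (fun _ _ => abs_nonneg _) (Finset.mem_univ l)
    set Y : ι → ℝ := fun i => if h : x i = b then y ⟨i, h⟩ else if b then -K else K with hY
    have hcomp : ∀ i j, x i = false → x j = true → Y i ≤ Y j := by
      clear hij i j
      intro u v hu hv
      cases b with
      | true =>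
        have e1 : Y u = -K := by simp [hY, hu]
        have e2 : Y v = y ⟨v, hv⟩ := by simp [hY, hv]
        rw [e1, e2]
        exact (neg_le_neg (hK1 _)).trans (neg_abs_le _)
      | false =>
        have e1 : Y u = y ⟨u, hu⟩ := by simp [hY, hu]
        have e2 : Y v = K := by simp [hY, hv]
        rw [e1, e2]
        exact (le_abs_self _).trans (hK1 _)
    have hyY : (fun l : {i // x i = b} => Y ((Equiv.refl ι) l)) = y := by
      funext l
      simp only [Equiv.refl_apply, hY]
      rw [dif_pos l.2]
    have e1 := h4 Y hcomp b i
    have e2 := h4 Y hcomp b j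
    rw [hyY] at e1 e2
    rw [← e1, ← e2]
    exact hs Y _ _ hij

end restrict

end Pool.Agent.H14Sort
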