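import Pool.Agent.H14Sort.Phi
import Pool.Agent.H14Sort.Net

/-! # MP_be3412_lc: the expected number of 0-1 collisions

For a uniformly random input in `{0, 1}^m` a network that sorts has at least
`1.266 m - 4.613 √m` collisions on average. -/

open Finset

namespace Pool.Agent.H14Sort

variable {ι : Type*} [DecidableEq ι] [Fintype ι]

/-- indicator of a one -/
def bit (b : Bool) : ℝ := if b then 1 else 0

theorem bit_nonneg (b : Bool) : 0 ≤ bit b := by cases b <;> simp [bit]

theorem bit_le_one (b : Bool) : bit b ≤ 1 := by cases b <;> simp [bit]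

theorem bit_mono : Monotone bit := by
  intro a b h
  cases a
  · exact (by simp [bit] : bit false = 0) ▸ bit_nonneg b
  · cases b
    · exact absurd h (by decide)
    · exact le_rfl

theorem bit_min (a b : Bool) : bit (min a b) = bit a * bit b := by
  cases a <;> cases b <;> simp [bit]

theorem bit_max (a b : Bool) : bit (max a b) = bit a + bit b - bit (min a b) := by
  cases a <;> cases b <;> simp [bit]

/-- probability that the line `w` carries a one -/
noncomputable def pr (s : (ι → Bool) → (ι → Bool)) (w : ι) : ℝ :=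
  (∑ x, bit (s x w)) / 2 ^ Fintype.card ι

theorem card_cube : (Fintype.card (ι → Bool) : ℝ) = 2 ^ Fintype.card ι := by
  simp

theorem pr_nonneg (s : (ι → Bool) → (ι → Bool)) (w : ι) : 0 ≤ pr s w :=
  div_nonneg (sum_nonneg fun _ _ => bit_nonneg _) (by positivity)

theorem pr_le_one (s : (ι → Bool) → (ι → Bool)) (w : ι) : pr s w ≤ 1 := by
  unfold pr
  rw [div_le_one (by positivity), ← card_cube]
  calc ∑ x, bit (s x w) ≤ ∑ _x : ι → Bool, (1 : ℝ) := sum_le_sum fun _ _ => bit_le_one _
    _ = _ := by simp

/-- positive correlation -/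
theorem pr_mul_le {s : (ι → Bool) → (ι → Bool)} (hs : Monotone s) (i j : ι) :
    pr s i * pr s j ≤ (∑ x, bit (min (s x i) (s x j))) / 2 ^ Fintype.card ι := by
  have h := fkg (α := ι → Bool) (β := ℝ) (fun x => bit (s x i)) (fun x => bit (s x j))
    (fun _ => 1) (fun _ => zero_le_one) (fun _ => bit_nonneg _) (fun _ => bit_nonneg _)
    (fun x y hxy => bit_mono (hs hxy i)) (fun x y hxy => bit_mono (hs hxy j))
    (fun _ _ => le_rfl)
  simp only [one_mul, sum_const, card_univ, nsmul_eq_mul, mul_one, card_cube] at h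
  unfold pr
  rw [div_mul_div_comm, div_le_div_iff₀ (by positivity) (by positivity)]
  have e : ∑ x, bit (min (s x i) (s x j)) = ∑ x, bit (s x i) * bit (s x j) :=
    sum_congr rfl fun x _ => bit_min _ _
  rw [e]
  have := mul_le_mul_of_nonneg_right h (by positivity : (0 : ℝ) ≤ 2 ^ Fintype.card ι)
  linarith

theorem pot_run (N : List (ι × ι)) (hN : ∀ c ∈ N, c.1 ≠ c.2) :
    ∀ (s : (ι → Bool) → (ι → Bool)), Monotone s →
      ∑ w, F (pr s w) ≤ ∑ w, F (pr (fun x => run N (s x)) w) +
        10 ^ 9 * ((∑ x, (coll N (s x) : ℝ)) / 2 ^ Fintype.card ι) := by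
  induction N with
  | nil => intro s _; simp [run, coll]
  | cons c N ih =>
    intro s hs
    have hc : c.1 ≠ c.2 := hN c (List.mem_cons_self ..)
    set s' : (ι → Bool) → (ι → Bool) := fun x => cmp c (s x) with hs'
    have hs'm : Monotone s' := fun x y h => cmp_mono c (hs h)
    have h1 := ih (fun d hd => hN d (List.mem_cons_of_mem _ hd)) s' hs'm
    set R : ℝ := (∑ x, bit (min (s x c.1) (s x c.2))) / 2 ^ Fintype.card ι with hR
    have e1 : pr s' c.1 = R := by
      simp only [pr, hs', cmp, if_true, hR]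
    have e2 : pr s' c.2 = pr s c.1 + pr s c.2 - R := by
      simp only [pr, hs', cmp, if_true, hc.symm, if_false, hR]
      rw [← add_div, ← sub_div, ← sum_add_distrib, ← sum_sub_distrib]
      congr 1
      exact sum_congr rfl fun x _ => bit_max _ _
    have e3 : ∀ w, w ≠ c.1 ∧ w ≠ c.2 → pr s' w = pr s w := by
      intro w hw
      simp only [pr, hs', cmp, hw.1, hw.2, if_false]
    have hRp : R ≤ pr s c.1 := by
      unfold pr
      rw [hR]
      gcongr with x _
      exact bit_mono (min_le_left _ _)
    have hRq : R ≤ pr s c.2 := by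
      unfold pr
      rw [hR]
      gcongr with x _
      exact bit_mono (min_le_right _ _)
    have h2 := pot (pr_nonneg s c.1) (pr_nonneg s c.2) (pr_le_one s c.1) (pr_le_one s c.2)
      (pr_mul_le hs c.1 c.2) hRp hRq
    rw [← hR] at h2
    have h3 : ∑ w, (F (pr s w) - F (pr s' w)) =
        (F (pr s c.1) - F (pr s' c.1)) + (F (pr s c.2) - F (pr s' c.2)) :=
      Fintype.sum_eq_add c.1 c.2 hc fun w hw => by rw [e3 w hw, sub_self]
    rw [sum_sub_distrib, e1, e2] at h3
    have h4 : (∑ x, (coll (c :: N) (s x) : ℝ)) / 2 ^ Fintype.card ι =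
        (pr s c.1 + pr s c.2 - R - R) + (∑ x, (coll N (s' x) : ℝ)) / 2 ^ Fintype.card ι := by
      unfold pr
      rw [hR, ← add_div, ← sub_div, ← sub_div, ← add_div, ← sum_add_distrib,
        ← sum_sub_distrib, ← sum_sub_distrib, ← sum_add_distrib]
      congr 1
      refine sum_congr rfl fun x _ => ?_
      simp only [coll, Nat.cast_add, hs']
      congr 1
      rcases s x c.1 with _ | _ <;> rcases s x c.2 with _ | _ <;> simp [bit]
    have h5 : (fun x => run (c :: N) (s x)) = fun x => run N (s' x) := rfl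
    rw [h4, h5]
    linarith

/-! ### moments of the number of ones -/

/-- sign of a bit -/
def eps (b : Bool) : ℝ := if b then 1 else -1

theorem eps_not (b : Bool) : eps (!b) = -eps b := by cases b <;> simp [eps]

theorem eps_sq (b : Bool) : eps b * eps b = 1 := by cases b <;> simp [eps]

theorem bit_eq (b : Bool) : bit b = (1 + eps b) / 2 := by cases b <;> simp [eps, bit]

omit [Fintype ι] in
theorem flip_invol (i : ι) :
    Function.Involutive fun x : ι → Bool => Function.update x i (!x i) := by
  intro x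
  simp

theorem sum_eps (i : ι) : ∑ x : ι → Bool, eps (x i) = 0 := by
  have h := Equiv.sum_comp ((flip_invol i).toPerm) fun x : ι → Bool => eps (x i)
  simp only [Function.Involutive.coe_toPerm, Function.update_self, eps_not, sum_neg_distrib] at h
  linarith

theorem sum_eps_mul {i j : ι} (hij : i ≠ j) : ∑ x : ι → Bool, eps (x i) * eps (x j) = 0 := by
  have h := Equiv.sum_comp ((flip_invol i).toPerm) fun x : ι → Bool => eps (x i) * eps (x j)
  simp only [Function.Involutive.coe_toPerm, Function.update_self, eps_not,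
    Function.update_of_ne hij.symm, neg_mul, sum_neg_distrib] at h
  linarith

/-- number of ones minus number of zeros -/
noncomputable def W (x : ι → Bool) : ℝ := ∑ i, eps (x i)

theorem sum_W : ∑ x : ι → Bool, W x = 0 := by
  unfold W
  rw [sum_comm]
  exact sum_eq_zero fun i _ => sum_eps i

theorem sum_W_sq : ∑ x : ι → Bool, W x ^ 2 = Fintype.card ι * 2 ^ Fintype.card ι := by
  unfold W
  simp_rw [sq, sum_mul_sum]
  rw [sum_comm]
  have h : ∀ i : ι, ∑ x : ι → Bool, ∑ j, eps (x i) * eps (x j) = 2 ^ Fintype.card ι := by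
    intro i
    rw [sum_comm, sum_eq_single i]
    · simp only [eps_sq, sum_const, card_univ, nsmul_eq_mul, mul_one, card_cube]
    · intro j _ hj
      exact sum_eps_mul hj.symm
    · simp
  simp_rw [h]
  simp

/-- number of ones -/
noncomputable def K (x : ι → Bool) : ℝ := ∑ i, bit (x i)

omit [DecidableEq ι] in
theorem K_eq (x : ι → Bool) : K x = (Fintype.card ι + W x) / 2 := by
  unfold K W
  simp_rw [bit_eq]
  rw [← sum_div, sum_add_distrib]
  simp

theorem K_cmp (c : ι × ι) (hc : c.1 ≠ c.2) (x : ι → Bool) : K (cmp c x) = K x := by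
  unfold K
  rw [← sub_eq_zero, ← sum_sub_distrib, Fintype.sum_eq_add c.1 c.2 hc]
  · simp only [cmp, if_true, hc.symm, if_false]
    rw [bit_max]
    ring
  · intro w hw
    simp [cmp, hw.1, hw.2]

theorem K_run (N : List (ι × ι)) (hN : ∀ c ∈ N, c.1 ≠ c.2) (x : ι → Bool) :
    K (run N x) = K x := by
  induction N generalizing x with
  | nil => rfl
  | cons c N ih =>
    rw [run, ih (fun d hd => hN d (List.mem_cons_of_mem _ hd)),
      K_cmp c (hN c (List.mem_cons_self ..))]

theorem sum_diff_sq : ∑ p : (ι → Bool) × (ι → Bool), (K p.1 - K p.2) ^ 2 =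
    Fintype.card ι / 2 * (2 ^ Fintype.card ι) ^ 2 := by
  rw [Fintype.sum_prod_type]
  have h : ∀ x y : ι → Bool, (K x - K y) ^ 2 = W x ^ 2 / 4 + W y ^ 2 / 4 - W x / 2 * W y := by
    intro x y; rw [K_eq, K_eq]; ring
  simp only [h, sum_sub_distrib, sum_add_distrib, ← mul_sum, sum_W, mul_zero, sub_zero, sum_const,
    card_univ, nsmul_eq_mul, card_cube, ← sum_div, sum_W_sq]
  ring

theorem sum_abs_diff_le : ∑ p : (ι → Bool) × (ι → Bool), |K p.1 - K p.2| ≤
    (2 ^ Fintype.card ι) ^ 2 * √(Fintype.card ι / 2) := by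
  have h := sq_sum_le_card_mul_sum_sq (s := (univ : Finset ((ι → Bool) × (ι → Bool))))
    (f := fun p => |K p.1 - K p.2|)
  simp only [sq_abs, sum_diff_sq, card_univ, Fintype.card_prod, Nat.cast_mul, card_cube] at h
  have h0 : (0 : ℝ) ≤ Fintype.card ι / 2 := by positivity
  refine le_of_sq_le_sq (h.trans (le_of_eq ?_)) (by positivity)
  rw [mul_pow, Real.sq_sqrt h0]
  ring

/-! ### the output lines -/

theorem sorted_bool {N : List (ι × ι)} {ρ : ι → ℕ} (h : SortsBy N ρ) (x : ι → Bool) {i j : ι}
    (hij : ρ i ≤ ρ j) : run N x i ≤ run N x j := by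
  have h1 := h.2.2 (fun i => bit (x i)) i j hij
  rw [run_map bit_mono] at h1
  change bit (run N x i) ≤ bit (run N x j) at h1
  rcases hi : run N x i with _ | _
  · exact bot_le
  · rcases hj : run N x j with _ | _
    · rw [hi, hj] at h1
      simp only [bit] at h1
      norm_num at h1
    · exact le_rfl

theorem sum_abs_out {N : List (ι × ι)} {ρ : ι → ℕ} (h : SortsBy N ρ) (x y : ι → Bool) :
    ∑ w, |bit (run N x w) - bit (run N y w)| = |K x - K y| := by
  have key : ∀ x y : ι → Bool, (∀ w, run N x w ≤ run N y w) →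
      ∑ w, |bit (run N x w) - bit (run N y w)| = |K x - K y| := by
    intro x y hle
    have h1 : ∀ w, |bit (run N x w) - bit (run N y w)| =
        bit (run N y w) - bit (run N x w) := by
      intro w
      rw [abs_of_nonpos (sub_nonpos.2 (bit_mono (hle w)))]
      ring
    simp_rw [h1]
    rw [sum_sub_distrib]
    have h2 : K (run N x) ≤ K (run N y) := sum_le_sum fun w _ => bit_mono (hle w)
    rw [← K_run N h.2.1 x, ← K_run N h.2.1 y, abs_of_nonpos (sub_nonpos.2 h2)]
    unfold K
    ring
  by_cases hle : ∀ w, run N x w ≤ run N y w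
  · exact key x y hle
  · push Not at hle
    obtain ⟨i, hi⟩ := hle
    have hle' : ∀ w, run N y w ≤ run N x w := by
      intro w
      rcases le_total (ρ w) (ρ i) with hw | hw
      · have h1 := sorted_bool h y hw
        have h2 : run N y i = false := by
          rcases h3 : run N y i with _ | _
          · rfl
          · rw [h3] at hi
            exact absurd hi (not_lt.2 le_top)
        rw [h2] at h1
        exact h1.trans bot_le
      · have h1 := sorted_bool h x hw
        have h2 : run N x i = true := by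
          rcases h3 : run N x i with _ | _
          · rw [h3] at hi
            exact absurd hi (not_lt.2 bot_le)
          · rfl
        rw [h2] at h1
        exact le_top.trans h1
    rw [abs_sub_comm (K x), ← key y x hle']
    exact sum_congr rfl fun w _ => abs_sub_comm _ _

theorem out_le {N : List (ι × ι)} {ρ : ι → ℕ} (h : SortsBy N ρ) :
    ∑ w, pr (fun x => run N x) w * (1 - pr (fun x => run N x) w) ≤
      √(Fintype.card ι / 2) / 2 := by
  have h1 : ∀ w, ∑ p : (ι → Bool) × (ι → Bool), |bit (run N p.1 w) - bit (run N p.2 w)| =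
      2 * (2 ^ Fintype.card ι) ^ 2 *
        (pr (fun x => run N x) w * (1 - pr (fun x => run N x) w)) := by
    intro w
    rw [Fintype.sum_prod_type]
    have h2 : ∀ a b : Bool, |bit a - bit b| = bit a + bit b - 2 * bit a * bit b := by
      intro a b; cases a <;> cases b <;> norm_num [bit]
    simp only [h2, sum_sub_distrib, sum_add_distrib, ← mul_sum, sum_const, card_univ,
      nsmul_eq_mul, card_cube, ← sum_mul]
    unfold pr
    field_simp
    ring
  have h2 : ∑ w, ∑ p : (ι → Bool) × (ι → Bool), |bit (run N p.1 w) - bit (run N p.2 w)| ≤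
      (2 ^ Fintype.card ι) ^ 2 * √(Fintype.card ι / 2) := by
    rw [sum_comm]
    simp_rw [sum_abs_out h]
    exact sum_abs_diff_le
  simp_rw [h1] at h2
  rw [← mul_sum] at h2
  have h3 : (0 : ℝ) < (2 ^ Fintype.card ι) ^ 2 := by positivity
  have h4 : (2 ^ Fintype.card ι) ^ 2 *
      (2 * ∑ w, pr (fun x => run N x) w * (1 - pr (fun x => run N x) w)) ≤
      (2 ^ Fintype.card ι) ^ 2 * √(Fintype.card ι / 2) := by linarith
  have := le_of_mul_le_mul_left h4 h3
  linarith

/-- The average number of 0-1 collisions. -/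
theorem coll_ge {N : List (ι × ι)} {ρ : ι → ℕ} (h : SortsBy N ρ) :
    2 ^ Fintype.card ι * (1.266 * Fintype.card ι - 4.613 * √(Fintype.card ι)) ≤
      ∑ x : ι → Bool, (coll N x : ℝ) := by
  have h1 := pot_run N h.2.1 (fun x => x) monotone_id
  have h2 : ∀ w : ι, pr (fun x : ι → Bool => x) w = 1 / 2 := by
    intro w
    unfold pr
    simp_rw [bit_eq]
    rw [← sum_div, sum_add_distrib, sum_eps]
    simp only [sum_const, card_univ, nsmul_eq_mul, card_cube]
    field_simp
    ring
  simp_rw [h2, F_half] at h1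
  have h3 : ∑ w, F (pr (fun x => run N x) w) ≤
      13047293080 * (√(Fintype.card ι / 2) / 2) := by
    calc ∑ w, F (pr (fun x => run N x) w) ≤
        ∑ w, 13047293080 * (pr (fun x => run N x) w * (1 - pr (fun x => run N x) w)) :=
          sum_le_sum fun w _ => F_le (pr_nonneg _ _) (pr_le_one _ _)
      _ = 13047293080 * ∑ w, pr (fun x => run N x) w * (1 - pr (fun x => run N x) w) := by
          rw [mul_sum]
      _ ≤ _ := by
          have := out_le h
          gcongr
  have h4 : √((Fintype.card ι : ℝ) / 2) ≤ 0.70711 * √(Fintype.card ι) := by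
    rw [show (0.70711 : ℝ) = √(0.70711 ^ 2) by rw [Real.sqrt_sq (by norm_num)],
      ← Real.sqrt_mul (by norm_num)]
    refine Real.sqrt_le_sqrt ?_
    have : (0 : ℝ) ≤ Fintype.card ι := by positivity
    nlinarith
  simp only [sum_const, card_univ, nsmul_eq_mul] at h1
  have h5 : (0 : ℝ) < 2 ^ Fintype.card ι := by positivity
  have h6 : 1.266 * (Fintype.card ι : ℝ) - 4.613 * √(Fintype.card ι) ≤
      (∑ x : ι → Bool, (coll N x : ℝ)) / 2 ^ Fintype.card ι := by
    have h7 : (0 : ℝ) ≤ √(Fintype.card ι) := Real.sqrt_nonneg _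
    have h8 := h1.trans (add_le_add_left h3 _)
    norm_num at h8 h4 ⊢
    linarith
  rw [le_div_iff₀ h5] at h6
  linarith

end Pool.Agent.H14Sort
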