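import Pool.Agent.H14Sort.ChkE

/-! # MP_be3412_lc: the potential inequality

`F = 10 ^ 9 φ` is concave on `[0, 1]`, vanishes at `0` and `1`, has `F (1/2) = 1.266 * 10 ^ 9`, and
`F p + F q ≤ F r + F s + 10 ^ 9 (s - r)` whenever `p q ≤ r ≤ min p q`, `r + s = p + q`. -/

namespace Pool.Agent.H14Sort

/-- the potential, multiplied by `10 ^ 9` -/
noncomputable def F (x : ℝ) : ℝ := ev phiL x

theorem F_eq (x : ℝ) : F x = ev (0 :: alL) (4 * x - 4 * x ^ 2) := by
  unfold F
  rw [phiL_eq, ev_comp]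
  congr 1
  simp only [ev]
  push_cast
  ring

theorem F_zero : F 0 = 0 := by
  rw [F_eq]; simp [ev]

theorem F_one : F 1 = 0 := by
  rw [F_eq]; simp [ev]

theorem F_half : F (1 / 2) = 1266 * 10 ^ 6 := by
  rw [F_eq, show (4 : ℝ) * (1 / 2) - 4 * (1 / 2) ^ 2 = 1 by norm_num]
  simp only [ev, alL]
  norm_num

theorem hasDerivAt_F (x : ℝ) : HasDerivAt F (ev gL x) x := by
  have h := hasDerivAt_ev phiL x
  rw [← gL_eq] at h
  exact h

theorem ev_VL (x : ℝ) : ev VL x = -ev (der gL) x := by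
  rw [VL_eq, ev_smul]; push_cast; ring

theorem hasDerivAt_g (x : ℝ) : HasDerivAt (ev gL) (-ev VL x) x := by
  have h := hasDerivAt_ev gL x
  rwa [ev_VL, neg_neg]

theorem VL_nonneg {x : ℝ} (h0 : 0 ≤ x) (h1 : x < 1) : 0 ≤ ev VL x := by
  refine chkAll_sound chkV (by simpa using h0) ?_
  simpa using h1

theorem RL_nonneg {x : ℝ} (h0 : 0 ≤ x) (h1 : x < 1) : 0 ≤ ev RL x := by
  refine chkAll_sound chkR (by simpa using h0) ?_
  simpa using h1

theorem DL_nonneg {x : ℝ} (h0 : 0 ≤ x) (h1 : x < 1) : 0 ≤ ev DL x := by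
  refine chkAll_sound chkD (by simpa using h0) ?_
  simpa using h1

theorem g_antitone : AntitoneOn (ev gL) (Set.Icc 0 1) := by
  refine antitoneOn_of_deriv_nonpos (convex_Icc 0 1) (continuous_ev gL).continuousOn
    (fun x _ => (hasDerivAt_g x).differentiableAt.differentiableWithinAt) fun x hx => ?_
  rw [interior_Icc] at hx
  rw [(hasDerivAt_g x).deriv]
  exact neg_nonpos.2 (VL_nonneg hx.1.le hx.2)

theorem continuous_F : Continuous F := continuous_ev phiL

theorem F_concave : ConcaveOn ℝ (Set.Icc 0 1) F := by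
  refine AntitoneOn.concaveOn_of_deriv (convex_Icc 0 1) continuous_F.continuousOn
    (fun x _ => (hasDerivAt_F x).differentiableAt.differentiableWithinAt) ?_
  intro x hx y hy hxy
  rw [(hasDerivAt_F x).deriv, (hasDerivAt_F y).deriv]
  exact g_antitone (interior_subset hx) (interior_subset hy) hxy

theorem F_le {x : ℝ} (h0 : 0 ≤ x) (h1 : x ≤ 1) : F x ≤ 13047293080 * (x * (1 - x)) := by
  rcases h1.eq_or_lt with rfl | h1
  · rw [F_one]; norm_num
  · have h := RL_nonneg h0 h1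
    rw [RL_eq, ev_add, ev_smul, ev_smul] at h
    simp only [ev] at h
    push_cast at h
    unfold F
    linarith

theorem cover : ∀ a b : Fin 15, b ≤ a → ∃ x ∈ boxes, x.1 ≤ (a.val : ℤ) ∧ (a.val : ℤ) < x.2.1 ∧
    x.2.2.1 ≤ (b.val : ℤ) ∧ (b.val : ℤ) < x.2.2.2 := by
  decide

theorem chkBoxes_mem {L : List (ℤ × ℤ × ℤ × ℤ)} (h : chkBoxes L = true)
    {x : ℤ × ℤ × ℤ × ℤ} (hx : x ∈ L) :
    chk2 15 (2 ^ 29100 + 1) (2 ^ 606 + 1) 50 gL gpL x.1 x.2.1 x.2.2.1 x.2.2.2 = true := by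
  induction L with
  | nil => simp at hx
  | cons y L ih =>
    obtain ⟨i, j, k, l⟩ := y
    rw [chkBoxes, Bool.and_eq_true] at h
    rcases List.mem_cons.1 hx with rfl | hx
    · exact h.1
    · exact ih h.2 hx

theorem EE_nonneg {p q : ℝ} (hq : 0 ≤ q) (hqp : q ≤ p) (hp : p < 1) : 0 ≤ EE gL gpL p q := by
  have hp0 : 0 ≤ p := hq.trans hqp
  have hfl : ∀ x : ℝ, 0 ≤ x → x < 1 → ∃ a : Fin 15, (a.val : ℝ) ≤ 15 * x ∧
      15 * x < a.val + 1 := by
    intro x h0 h1
    refine ⟨⟨⌊15 * x⌋₊, ?_⟩, Nat.floor_le (by positivity), Nat.lt_floor_add_one _⟩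
    rw [Nat.floor_lt (by positivity)]
    push_cast
    linarith
  obtain ⟨a, ha1, ha2⟩ := hfl p hp0 hp
  obtain ⟨b, hb1, hb2⟩ := hfl q hq (by linarith)
  have hba : b ≤ a := by
    have : (b.val : ℝ) < a.val + 1 := by linarith
    have : b.val < a.val + 1 := by exact_mod_cast this
    exact Fin.le_def.2 (by omega)
  obtain ⟨x, hx, h1, h2, h3, h4⟩ := cover a b hba
  have h1' : (x.1 : ℝ) ≤ a.val := by exact_mod_cast h1
  have h2' : ((a.val : ℝ) + 1) ≤ x.2.1 := by exact_mod_cast h2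
  have h3' : (x.2.2.1 : ℝ) ≤ b.val := by exact_mod_cast h3
  have h4' : ((b.val : ℝ) + 1) ≤ x.2.2.2 := by exact_mod_cast h4
  refine chk2_sound (chkBoxes_mem chkE hx) ?_ ?_ ?_ ?_
  · push_cast; rw [div_le_iff₀ (by norm_num)]; linarith
  · push_cast; rw [lt_div_iff₀ (by norm_num)]; linarith
  · push_cast; rw [div_le_iff₀ (by norm_num)]; linarith
  · push_cast; rw [lt_div_iff₀ (by norm_num)]; linarith

theorem J {m δ : ℝ} (h0 : 0 ≤ δ) (h1 : δ ≤ m) (h2 : δ ≤ 1 - m) :
    F (m + δ) + F (m - δ) ≤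
      F (m ^ 2 - δ ^ 2) + F (2 * m - m ^ 2 + δ ^ 2) + 2 * 10 ^ 9 * (m - m ^ 2 + δ ^ 2) := by
  set G : ℝ → ℝ := fun x => F (m ^ 2 - x ^ 2) + F (2 * m - m ^ 2 + x ^ 2) +
    2 * 10 ^ 9 * (m - m ^ 2 + x ^ 2) - F (m + x) - F (m - x) with hG
  have hder : ∀ x, HasDerivAt G (ev gL (m ^ 2 - x ^ 2) * (-(2 * x)) +
      ev gL (2 * m - m ^ 2 + x ^ 2) * (2 * x) + 2 * 10 ^ 9 * (2 * x) -
      ev gL (m + x) - ev gL (m - x) * (-1)) x := by
    intro x
    have d1 : HasDerivAt (fun x : ℝ => m ^ 2 - x ^ 2) (-(2 * x)) x := by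
      simpa using (hasDerivAt_pow 2 x).const_sub (m ^ 2)
    have d2 : HasDerivAt (fun x : ℝ => 2 * m - m ^ 2 + x ^ 2) (2 * x) x := by
      simpa using (hasDerivAt_pow 2 x).const_add (2 * m - m ^ 2)
    have d3 : HasDerivAt (fun x : ℝ => m - m ^ 2 + x ^ 2) (2 * x) x := by
      simpa using (hasDerivAt_pow 2 x).const_add (m - m ^ 2)
    have d4 : HasDerivAt (fun x : ℝ => m + x) 1 x := by
      simpa using (hasDerivAt_id x).const_add m
    have d5 : HasDerivAt (fun x : ℝ => m - x) (-1) x := by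
      simpa using (hasDerivAt_id x).const_sub m
    have e1 := (hasDerivAt_F (m ^ 2 - x ^ 2)).comp x d1
    have e2 := (hasDerivAt_F (2 * m - m ^ 2 + x ^ 2)).comp x d2
    have e3 := d3.const_mul (2 * 10 ^ 9 : ℝ)
    have e4 := (hasDerivAt_F (m + x)).comp x d4
    have e5 := (hasDerivAt_F (m - x)).comp x d5
    rw [mul_one] at e4
    exact (((e1.add e2).add e3).sub e4).sub e5
  have hmono : MonotoneOn G (Set.Icc 0 δ) := by
    refine monotoneOn_of_deriv_nonneg (convex_Icc 0 δ)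
      (fun x _ => (hder x).continuousAt.continuousWithinAt)
      (fun x _ => (hder x).differentiableAt.differentiableWithinAt) fun x hx => ?_
    rw [interior_Icc] at hx
    rw [(hder x).deriv]
    have hE := EE_nonneg (p := m + x) (q := m - x) (by linarith [hx.2]) (by linarith [hx.1])
      (by linarith [hx.2])
    have hdd := mul_dd gL (m + x) (m - x)
    unfold EE at hE
    rw [gpL_eq, ev_add, ev_comp] at hE
    simp only [ev] at hE
    push_cast at hE
    have a1 : (1 : ℝ) + (1 - (m + x)) * (1 - (m - x)) * (-1 + (1 - (m + x)) * (1 - (m - x)) * 0) =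
        2 * m - m ^ 2 + x ^ 2 := by ring
    have a2 : (m + x) * (m - x) = m ^ 2 - x ^ 2 := by ring
    rw [a1, a2] at hE
    have hE2 := mul_nonneg (by linarith [hx.1] : (0 : ℝ) ≤ 2 * x) hE
    have hdd2 : 2 * x * dd gL (m + x) (m - x) = ev gL (m + x) - ev gL (m - x) := by
      rw [← hdd]; ring
    nlinarith [hE2, hdd2]
  have hG0 : 0 ≤ G 0 := by
    rcases (show m ≤ 1 by linarith).eq_or_lt with hm | hm
    · have : G 0 = 0 := by
        simp only [hG, hm]
        norm_num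
      exact this.ge
    · have h := DL_nonneg (h0.trans h1) hm
      rw [DL_eq] at h
      simp only [ev_add, ev_smul, ev_comp] at h
      have b1 : ev [0, 0, 1] m = m ^ 2 - 0 ^ 2 := by simp only [ev]; push_cast; ring
      have b2 : ev [0, 2, -1] m = 2 * m - m ^ 2 + 0 ^ 2 := by simp only [ev]; push_cast; ring
      have b3 : ev [0, 1, -1] m = m - m ^ 2 + 0 ^ 2 := by simp only [ev]; push_cast; ring
      rw [b1, b2, b3] at h
      simp only [hG, F, add_zero, sub_zero]
      push_cast at h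
      simp only [add_zero, sub_zero, zero_pow, ne_eq, OfNat.ofNat_ne_zero, not_false_eq_true]
        at h ⊢
      linarith
  have h3 := hmono (Set.left_mem_Icc.2 h0) (Set.right_mem_Icc.2 h0) h0
  have h4 : 0 ≤ G δ := hG0.trans h3
  simp only [hG] at h4
  linarith

/-- the potential inequality -/
theorem pot_aux {p q r : ℝ} (hq : 0 ≤ q) (hqp : q ≤ p) (hp : p ≤ 1) (hr : p * q ≤ r)
    (hrq : r ≤ q) : F p + F q ≤ F r + F (p + q - r) + 10 ^ 9 * ((p + q - r) - r) := by
  have hp0 : 0 ≤ p := hq.trans hqp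
  have hpq : 0 ≤ p * q := mul_nonneg hp0 hq
  have h := J (m := (p + q) / 2) (δ := (p - q) / 2) (by linarith) (by linarith) (by linarith)
  rw [show (p + q) / 2 + (p - q) / 2 = p by ring, show (p + q) / 2 - (p - q) / 2 = q by ring,
    show ((p + q) / 2) ^ 2 - ((p - q) / 2) ^ 2 = p * q by ring,
    show 2 * ((p + q) / 2) - ((p + q) / 2) ^ 2 + ((p - q) / 2) ^ 2 = p + q - p * q by ring,
    show (p + q) / 2 - ((p + q) / 2) ^ 2 + ((p - q) / 2) ^ 2 = (p + q - 2 * (p * q)) / 2 by ring]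
    at h
  rcases eq_or_lt_of_le (hr.trans hrq) with he | hlt
  · have : r = q := le_antisymm hrq (he ▸ hr)
    rw [this, add_sub_cancel_right]
    nlinarith
  · set t : ℝ := (q - r) / (q - p * q) with ht
    have hd : 0 < q - p * q := by linarith
    have ht0 : 0 ≤ t := div_nonneg (by linarith) hd.le
    have ht1 : t ≤ 1 := by rw [ht, div_le_one hd]; linarith
    have htd : t * (q - p * q) = q - r := div_mul_cancel₀ _ hd.ne'
    have hrt : r = t * (p * q) + (1 - t) * q := by linear_combination htd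
    have hst : p + q - r = t * (p + q - p * q) + (1 - t) * p := by linear_combination -htd
    have hpq1 : p * q ≤ 1 := by nlinarith
    have hs1 : p + q - p * q ≤ 1 := by nlinarith
    have hs0 : 0 ≤ p + q - p * q := by nlinarith
    have c1 := F_concave.2 (x := p * q) (y := q) ⟨hpq, hpq1⟩ ⟨hq, hqp.trans hp⟩ ht0
      (sub_nonneg.2 ht1) (by ring)
    have c2 := F_concave.2 (x := p + q - p * q) (y := p) ⟨hs0, hs1⟩ ⟨hp0, hp⟩ ht0
      (sub_nonneg.2 ht1) (by ring)
    simp only [smul_eq_mul] at c1 c2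
    rw [← hrt] at c1
    rw [← hst] at c2
    have h5 : p + q - r - r = t * (p + q - 2 * (p * q)) + (1 - t) * (p - q) := by
      rw [show p + q - r - r = (p + q - r) - r by ring, hst]
      linear_combination -hrt
    rw [h5]
    have h6 := mul_le_mul_of_nonneg_left h ht0
    have h7 : 0 ≤ (1 - t) * (p - q) := mul_nonneg (by linarith) (by linarith)
    nlinarith [c1, c2, h6, h7]

theorem pot {p q r : ℝ} (hp0 : 0 ≤ p) (hq0 : 0 ≤ q) (hp1 : p ≤ 1) (hq1 : q ≤ 1)
    (hr : p * q ≤ r) (hrp : r ≤ p) (hrq : r ≤ q) :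
    F p + F q ≤ F r + F (p + q - r) + 10 ^ 9 * ((p + q - r) - r) := by
  rcases le_total q p with h | h
  · exact pot_aux hq0 h hp1 hr hrq
  · have := pot_aux hp0 h hq1 (by linarith [mul_comm p q]) hrp
    rw [add_comm q p] at this
    linarith

end Pool.Agent.H14Sort
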