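import Mathlib

/-! # MP_be3412_lc: integer polynomials as lists, and a positivity test

`ev l x` is the value at `x` of the polynomial with coefficient list `l`.  The test `chk1` for
positivity on an interval substitutes `x = (i + j t) / (N (1 + t))` and looks at the signs of the
coefficients in `t`, which are read off as the digits of the value at one large integer `T`. -/

namespace Pool.Agent.H14Sort

/-- value of a polynomial -/
def ev : List ℤ → ℝ → ℝ
  | [], _ => 0
  | c :: l, x => c + x * ev l x

def add : List ℤ → List ℤ → List ℤ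
  | [], m => m
  | a :: l, [] => a :: l
  | a :: l, b :: m => (a + b) :: add l m

def smul (c : ℤ) : List ℤ → List ℤ
  | [] => []
  | a :: l => (c * a) :: smul c l

def mul : List ℤ → List ℤ → List ℤ
  | [], _ => []
  | [a], m => smul a m
  | a :: b :: l, m => add (smul a m) (0 :: mul (b :: l) m)

def comp : List ℤ → List ℤ → List ℤ
  | [], _ => []
  | [a], _ => [a]
  | a :: b :: l, m => add [a] (mul m (comp (b :: l) m))

def der : List ℤ → List ℤ
  | [] => []
  | [_] => []
  | _ :: b :: l => add (b :: l) (0 :: der (b :: l))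

/-- multiplication by `i + j t` -/
def lin (i j : ℤ) (l : List ℤ) : List ℤ := add (smul i l) (0 :: smul j l)

theorem ev_add (l m : List ℤ) (x : ℝ) : ev (add l m) x = ev l x + ev m x := by
  induction l generalizing m with
  | nil => simp [add, ev]
  | cons a l ih =>
    cases m with
    | nil => simp [add, ev]
    | cons b m => simp only [add, ev, ih, Int.cast_add]; ring

theorem ev_smul (c : ℤ) (l : List ℤ) (x : ℝ) : ev (smul c l) x = c * ev l x := by
  induction l with
  | nil => simp [smul, ev]
  | cons a l ih => simp only [smul, ev, ih, Int.cast_mul]; ring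

theorem ev_mul (l m : List ℤ) (x : ℝ) : ev (mul l m) x = ev l x * ev m x := by
  induction l with
  | nil => simp [mul, ev]
  | cons a l ih =>
    cases l with
    | nil => simp [mul, ev, ev_smul]
    | cons b l =>
      simp only [mul, ev_add, ev_smul, ev, Int.cast_zero] at ih ⊢
      rw [ih]; ring

theorem ev_comp (l m : List ℤ) (x : ℝ) : ev (comp l m) x = ev l (ev m x) := by
  induction l with
  | nil => simp [comp, ev]
  | cons a l ih =>
    cases l with
    | nil => simp [comp, ev]
    | cons b l =>
      simp only [comp, ev_add, ev_mul, ih]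
      simp only [ev]
      ring

theorem ev_lin (i j : ℤ) (l : List ℤ) (x : ℝ) : ev (lin i j l) x = (i + j * x) * ev l x := by
  simp only [lin, ev_add, ev_smul, ev, Int.cast_zero]; ring

theorem hasDerivAt_ev (l : List ℤ) (x : ℝ) : HasDerivAt (ev l) (ev (der l) x) x := by
  induction l with
  | nil => simpa [ev, der] using hasDerivAt_const x (0 : ℝ)
  | cons a l ih =>
    cases l with
    | nil =>
      have e : ev [a] = fun _ => (a : ℝ) := by
        funext y; simp [ev]
      rw [e]
      simpa [ev, der] using hasDerivAt_const x (a : ℝ)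
    | cons b l =>
      have h := ((hasDerivAt_id x).mul ih).const_add (a : ℝ)
      have e : ev (a :: b :: l) = fun y => (a : ℝ) + ((id : ℝ → ℝ) * ev (b :: l)) y := by
        funext y; simp [ev]
      rw [e]
      refine h.congr_deriv ?_
      simp only [der, ev_add, ev, Int.cast_zero, id]
      ring

theorem continuous_ev (l : List ℤ) : Continuous (ev l) :=
  continuous_iff_continuousAt.2 fun x => (hasDerivAt_ev l x).continuousAt

theorem ev_nonneg {l : List ℤ} (h : l.all (fun c => decide (0 ≤ c)) = true) {x : ℝ} (hx : 0 ≤ x) :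
    0 ≤ ev l x := by
  induction l with
  | nil => simp [ev]
  | cons a l ih =>
    simp only [List.all_cons, Bool.and_eq_true, decide_eq_true_eq] at h
    simp only [ev]
    have := ih h.2
    have ha : (0 : ℝ) ≤ a := by exact_mod_cast h.1
    positivity

/-- homogeneous substitution `x = (i + j t) / (N (1 + t))`: returns the coefficients of
`(N (1 + t)) ^ (length - 1) * l (x)` and those of `(N (1 + t)) ^ length` -/
def hom (i j N : ℤ) : List ℤ → List ℤ × List ℤ
  | [] => ([], [1])
  | c :: l => (add (smul c (hom i j N l).2) (lin i j (hom i j N l).1), lin N N (hom i j N l).2)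

theorem ev_hom (i j N : ℤ) (l : List ℤ) {t : ℝ} (hs : (N : ℝ) * (1 + t) ≠ 0) :
    ev (hom i j N l).2 t = (N * (1 + t)) ^ l.length ∧
    ev (hom i j N l).1 t * (N * (1 + t)) =
      (N * (1 + t)) ^ l.length * ev l ((i + j * t) / (N * (1 + t))) := by
  induction l with
  | nil => simp [hom, ev]
  | cons c l ih =>
    obtain ⟨h1, h2⟩ := ih
    constructor
    · simp only [hom, ev_lin, h1, List.length_cons, pow_succ]; ring
    · simp only [hom, ev_add, ev_smul, ev_lin, h1, List.length_cons, pow_succ, ev]
      rw [add_mul, show ((i : ℝ) + j * t) * ev (hom i j N l).1 t * (N * (1 + t)) =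
        (i + j * t) * (ev (hom i j N l).1 t * (N * (1 + t))) by ring, h2]
      generalize ev l ((i + j * t) / (N * (1 + t))) = L
      generalize (N : ℝ) * (1 + t) = s at hs
      field_simp

/-! ### packed evaluation -/

/-- integer value -/
def evZ : List ℤ → ℤ → ℤ
  | [], _ => 0
  | c :: l, T => c + T * evZ l T

/-- sum of the absolute values of the coefficients, weighted by powers of `T` -/
def nrm (T : ℤ) : List ℤ → ℤ
  | [] => 0
  | c :: l => (c.natAbs : ℤ) + T * nrm T l

/-- `(∑ c_k r ^ k s ^ (n - k), s ^ (n + 1))` -/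
def homZ (r s : ℤ) : List ℤ → ℤ × ℤ
  | [] => (0, 1)
  | c :: l => (c * (homZ r s l).2 + r * (homZ r s l).1, s * (homZ r s l).2)

def absl : List ℤ → List ℤ
  | [] => []
  | c :: l => (c.natAbs : ℤ) :: absl l

/-- all the digits of `Z` in base `T` are less than `T / 2`, and there are at most `k` of them -/
def dig (T : ℤ) : ℕ → ℤ → Bool
  | 0, Z => decide (Z = 0)
  | k + 1, Z => decide (2 * (Z % T) < T) && dig T k (Z / T)

/-- makes the kernel evaluate `n` -/
def force (n : ℕ) (f : ℕ → Bool) : Bool :=
  match n with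
  | 0 => f 0
  | k + 1 => f (k + 1)

theorem force_eq (n : ℕ) (f : ℕ → Bool) : force n f = f n := by cases n <;> rfl

/-- the same test on natural numbers -/
def digN (T : ℕ) : ℕ → ℕ → Bool
  | 0, Z => Nat.beq Z 0
  | k + 1, Z => force (Z % T) fun d => Nat.blt (2 * d) T && force (Z / T) fun Z' => digN T k Z'

theorem dig_of_digN {T : ℕ} {k Z : ℕ} (h : digN T k Z = true) : dig T k Z = true := by
  induction k generalizing Z with
  | zero =>
    simp only [digN, Nat.beq_eq] at h
    simp [dig, h]
  | succ k ih =>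
    simp only [digN, force_eq, Bool.and_eq_true, Nat.blt_eq] at h
    obtain ⟨h1, h2⟩ := h
    simp only [dig, Bool.and_eq_true, decide_eq_true_eq]
    refine ⟨by exact_mod_cast h1, ?_⟩
    have := ih h2
    rwa [Int.natCast_div] at this

theorem dig_zero (T Z : ℤ) : dig T 0 Z = true ↔ Z = 0 := by simp [dig]

theorem dig_succ (T Z : ℤ) (k : ℕ) :
    dig T (k + 1) Z = true ↔ 2 * (Z % T) < T ∧ dig T k (Z / T) = true := by simp [dig]

theorem evZ_add (l m : List ℤ) (T : ℤ) : evZ (add l m) T = evZ l T + evZ m T := by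
  induction l generalizing m with
  | nil => simp [add, evZ]
  | cons a l ih =>
    cases m with
    | nil => simp [add, evZ]
    | cons b m => simp only [add, evZ, ih]; ring

theorem evZ_smul (c : ℤ) (l : List ℤ) (T : ℤ) : evZ (smul c l) T = c * evZ l T := by
  induction l with
  | nil => simp [smul, evZ]
  | cons a l ih => simp only [smul, evZ, ih]; ring

theorem evZ_lin (i j : ℤ) (l : List ℤ) (T : ℤ) : evZ (lin i j l) T = (i + j * T) * evZ l T := by
  simp only [lin, evZ_add, evZ_smul, evZ]; ring

theorem evZ_hom (i j N T : ℤ) (l : List ℤ) :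
    evZ (hom i j N l).1 T = (homZ (i + j * T) (N + N * T) l).1 ∧
    evZ (hom i j N l).2 T = (homZ (i + j * T) (N + N * T) l).2 := by
  induction l with
  | nil => simp [hom, homZ, evZ]
  | cons c l ih =>
    obtain ⟨h1, h2⟩ := ih
    constructor
    · simp only [hom, homZ, evZ_add, evZ_smul, evZ_lin, h1, h2]
    · simp only [hom, homZ, evZ_lin, h2]

theorem nrm_nonneg {T : ℤ} (hT : 0 ≤ T) (l : List ℤ) : 0 ≤ nrm T l := by
  induction l with
  | nil => simp [nrm]
  | cons a l ih => simp only [nrm]; positivity

theorem nrm_add {T : ℤ} (hT : 0 ≤ T) (l m : List ℤ) : nrm T (add l m) ≤ nrm T l + nrm T m := by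
  induction l generalizing m with
  | nil => simp [add, nrm]
  | cons a l ih =>
    cases m with
    | nil => simp [add, nrm]
    | cons b m =>
      simp only [add, nrm]
      have h1 := mul_le_mul_of_nonneg_left (ih m) hT
      have h2 : ((a + b).natAbs : ℤ) ≤ a.natAbs + b.natAbs := by omega
      linarith

theorem nrm_smul (T : ℤ) (c : ℤ) (l : List ℤ) : nrm T (smul c l) = (c.natAbs : ℤ) * nrm T l := by
  induction l with
  | nil => simp [smul, nrm]
  | cons a l ih => simp only [smul, nrm, ih, Int.natAbs_mul]; push_cast; ring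

theorem nrm_lin {T : ℤ} (hT : 0 ≤ T) {i j : ℤ} (hi : 0 ≤ i) (hj : 0 ≤ j) (l : List ℤ) :
    nrm T (lin i j l) ≤ (i + j * T) * nrm T l := by
  have h := nrm_add hT (smul i l) (0 :: smul j l)
  simp only [nrm, nrm_smul, Int.natAbs_zero, Nat.cast_zero, zero_add, Int.natAbs_of_nonneg hi,
    Int.natAbs_of_nonneg hj] at h
  calc nrm T (lin i j l) ≤ _ := h
    _ = (i + j * T) * nrm T l := by ring

theorem homZ_nonneg {r s : ℤ} (hr : 0 ≤ r) (hs : 0 ≤ s) (l : List ℤ) :
    0 ≤ (homZ r s (absl l)).1 ∧ 0 ≤ (homZ r s (absl l)).2 := by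
  induction l with
  | nil => simp [homZ, absl]
  | cons c l ih =>
    obtain ⟨h1, h2⟩ := ih
    constructor
    · simp only [homZ, absl]; positivity
    · simp only [homZ, absl]; positivity

theorem nrm_hom {i j N T : ℤ} (hi : 0 ≤ i) (hj : 0 ≤ j) (hN : 0 ≤ N) (hT : 0 ≤ T) (l : List ℤ) :
    nrm T (hom i j N l).1 ≤ (homZ (i + j * T) (N + N * T) (absl l)).1 ∧
    nrm T (hom i j N l).2 ≤ (homZ (i + j * T) (N + N * T) (absl l)).2 := by
  induction l with
  | nil => simp [hom, homZ, nrm, absl]
  | cons c l ih =>
    obtain ⟨h1, h2⟩ := ih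
    constructor
    · simp only [hom, homZ, absl]
      refine (nrm_add hT _ _).trans ?_
      rw [nrm_smul]
      have h3 := nrm_lin hT hi hj (hom i j N l).1
      have h4 : (i + j * T) * nrm T (hom i j N l).1 ≤
          (i + j * T) * (homZ (i + j * T) (N + N * T) (absl l)).1 :=
        mul_le_mul_of_nonneg_left h1 (by positivity)
      have h5 : (c.natAbs : ℤ) * nrm T (hom i j N l).2 ≤
          (c.natAbs : ℤ) * (homZ (i + j * T) (N + N * T) (absl l)).2 :=
        mul_le_mul_of_nonneg_left h2 (by positivity)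
      linarith
    · simp only [hom, homZ, absl]
      refine (nrm_lin hT hN hN _).trans ?_
      exact mul_le_mul_of_nonneg_left h2 (by positivity)

theorem natAbs_le_nrm {T : ℤ} (hT : 1 ≤ T) {l : List ℤ} {c : ℤ} (hc : c ∈ l) :
    (c.natAbs : ℤ) ≤ nrm T l := by
  induction l with
  | nil => simp at hc
  | cons a l ih =>
    simp only [nrm]
    have h0 := nrm_nonneg (by linarith : 0 ≤ T) l
    rcases List.mem_cons.1 hc with rfl | h
    · have : 0 ≤ T * nrm T l := by positivity
      linarith
    · have := ih h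
      nlinarith [(Int.natCast_nonneg a.natAbs)]

theorem all_of_dig {T : ℤ} {h : List ℤ} (hb : ∀ c ∈ h, 2 * (c.natAbs : ℤ) < T) {k : ℕ}
    (hd : dig T k (evZ h T) = true) : ∀ c ∈ h, 0 ≤ c := by
  induction h generalizing k with
  | nil => simp
  | cons c h ih =>
    have hc := hb c (List.mem_cons_self ..)
    have hT : 0 < T := by have := Int.natCast_nonneg c.natAbs; linarith
    have hb' : ∀ c ∈ h, 2 * (c.natAbs : ℤ) < T := fun d hd => hb d (List.mem_cons_of_mem _ hd)
    have key : 0 ≤ c ∧ ∃ k', dig T k' (evZ h T) = true := by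
      cases k with
      | zero =>
        rw [dig_zero, evZ] at hd
        have h1 : c = 0 := by
          have h2 : T ∣ c := ⟨-evZ h T, by linarith⟩
          by_contra h3
          have := Int.le_of_dvd (Int.natAbs_pos.2 h3 |> Int.natCast_pos.2) (Int.dvd_natAbs.2 h2)
          omega
        refine ⟨h1.ge, 0, ?_⟩
        rw [h1, zero_add] at hd
        rw [dig_zero]
        rcases mul_eq_zero.1 hd with h4 | h4
        · omega
        · exact h4
      | succ k =>
        rw [dig_succ, evZ] at hd
        obtain ⟨h1, h2⟩ := hd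
        rw [Int.add_mul_emod_self_left] at h1
        have h3 : 0 ≤ c := by
          by_contra h4
          have h5 : c % T = c + T := by
            rw [← Int.add_emod_right, Int.emod_eq_of_lt (by omega) (by omega)]
          omega
        refine ⟨h3, k, ?_⟩
        rwa [Int.add_mul_ediv_left _ _ hT.ne', Int.ediv_eq_zero_of_lt h3 (by omega), zero_add] at h2
    obtain ⟨h1, k', h2⟩ := key
    intro d hd
    rcases List.mem_cons.1 hd with rfl | hd
    · exact h1
    · exact ih hb' h2 d hd

/-- test for positivity on `[i / N, j / N)`; `T` is a large number -/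
def chk1 (N : ℤ) (T : ℕ) (l : List ℤ) (i j : ℤ) : Bool :=
  decide (0 < N) && (decide (0 ≤ i) && (decide (i < j) && (decide (1 ≤ T) &&
    (decide (2 * (homZ (i + j) (N + N) (absl l)).1 < T) &&
      (decide (0 ≤ (homZ (i + j * T) (N + N * T) l).1) &&
      force (homZ (i + j * T) (N + N * T) l).1.toNat fun Z => digN T (l.length + 1) Z)))))

theorem subst_eq {N i j : ℤ} (hN : 0 < N) (hij : i < j) {x : ℝ} (h1 : (i : ℝ) / N ≤ x)
    (h2 : x < (j : ℝ) / N) : ∃ t : ℝ, 0 ≤ t ∧ x = (i + j * t) / (N * (1 + t)) := by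
  have hN' : (0 : ℝ) < N := by exact_mod_cast hN
  have hij' : (i : ℝ) < j := by exact_mod_cast hij
  have e1 : 0 ≤ x * N - i := by rw [div_le_iff₀ hN'] at h1; linarith
  have e2 : 0 < j - x * N := by rw [lt_div_iff₀ hN'] at h2; linarith
  refine ⟨(x * N - i) / (j - x * N), div_nonneg e1 e2.le, ?_⟩
  have e3 : (1 + (x * N - i) / (j - x * N)) = (j - i) / (j - x * N) := by
    field_simp; ring
  rw [e3]
  have e4 : (j : ℝ) - i ≠ 0 := by linarith
  field_simp
  ring

theorem chk1_sound {N : ℤ} {T : ℕ} {l : List ℤ} {i j : ℤ} (h : chk1 N T l i j = true) {x : ℝ}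
    (h1 : (i : ℝ) / N ≤ x) (h2 : x < (j : ℝ) / N) : 0 ≤ ev l x := by
  simp only [chk1, Bool.and_eq_true, decide_eq_true_eq, force_eq] at h
  obtain ⟨hN, hi, hij, hT, hb, h0, hd⟩ := h
  have hd := dig_of_digN hd
  rw [Int.toNat_of_nonneg h0] at hd
  have h : (hom i j N l).1.all (fun c => decide (0 ≤ c)) = true := by
    rw [List.all_eq_true]
    intro c hc
    rw [decide_eq_true_eq]
    refine all_of_dig (T := T) (h := (hom i j N l).1) (k := l.length + 1) ?_ ?_ c hc
    · intro c hc
      have e1 := natAbs_le_nrm (le_refl (1 : ℤ)) hc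
      have e2 := (nrm_hom hi (hi.trans hij.le) hN.le zero_le_one l).1
      rw [mul_one, mul_one] at e2
      linarith
    · rw [(evZ_hom i j N T l).1]
      exact hd
  obtain ⟨t, ht, rfl⟩ := subst_eq hN hij h1 h2
  have hN' : (0 : ℝ) < N := by exact_mod_cast hN
  have hs : 0 < (N : ℝ) * (1 + t) := by positivity
  have e := (ev_hom i j N l hs.ne').2
  have e2 := ev_nonneg h ht
  have e3 : 0 ≤ (N * (1 + t)) ^ l.length * ev l ((i + j * t) / (N * (1 + t))) := by
    rw [← e]; positivity
  exact nonneg_of_mul_nonneg_right e3 (by positivity)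

/-- consecutive intervals -/
def chkAll (N : ℤ) (T : ℕ) (l : List ℤ) : List ℤ → Bool
  | a :: b :: r => chk1 N T l a b && chkAll N T l (b :: r)
  | _ => true

theorem chkAll_sound {N : ℤ} {T : ℕ} {l : List ℤ} : ∀ {a : ℤ} {r : List ℤ},
    chkAll N T l (a :: r) = true → ∀ {x : ℝ}, (a : ℝ) / N ≤ x →
    x < (((a :: r).getLast (by simp) : ℤ) : ℝ) / N → 0 ≤ ev l x
  | a, [], _, x, h1, h2 => by
    simp only [List.getLast_singleton] at h2
    exact absurd h1 (not_le.2 h2)
  | a, b :: r, h, x, h1, h2 => by
    simp only [chkAll, Bool.and_eq_true] at h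
    rcases lt_or_ge x ((b : ℝ) / N) with h3 | h3
    · exact chk1_sound h.1 h1 h3
    · exact chkAll_sound h.2 h3 (by simpa using h2)

end Pool.Agent.H14Sort
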