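import Pool.Agent.H14Sort.Poly

/-! # MP_be3412_lc: polynomials in two variables

`ev2 M x y` is the value of the polynomial in two variables whose coefficient of `x ^ i` is the
polynomial `M[i]` in `y`.  The test `chk2` shows that the function
`E(p, q) = - (g(p) - g(q)) / (p - q) - g(p q) + g'((1 - p) (1 - q))` is nonnegative on a rectangle,
by the substitution `p = (i + j t) / (N (1 + t))`, `q = (k + l u) / (N (1 + u))`. -/

namespace Pool.Agent.H14Sort

/-- value of a polynomial in two variables -/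
def ev2 : List (List ℤ) → ℝ → ℝ → ℝ
  | [], _, _ => 0
  | c :: M, x, y => ev c y + x * ev2 M x y

def add2 : List (List ℤ) → List (List ℤ) → List (List ℤ)
  | [], m => m
  | a :: l, [] => a :: l
  | a :: l, b :: m => add a b :: add2 l m

def smul2 (c : ℤ) : List (List ℤ) → List (List ℤ)
  | [] => []
  | a :: l => smul c a :: smul2 c l

/-- multiplication by `i + j x` -/
def lin2 (i j : ℤ) (M : List (List ℤ)) : List (List ℤ) := add2 (smul2 i M) ([] :: smul2 j M)

/-- multiplication by `i + j y` -/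
def linY (i j : ℤ) : List (List ℤ) → List (List ℤ)
  | [] => []
  | a :: l => lin i j a :: linY i j l

/-- multiplication by `(a + b x) (c + d y)` -/
def lin4 (a b c d : ℤ) (M : List (List ℤ)) : List (List ℤ) := lin2 a b (linY c d M)

theorem ev2_add (l m : List (List ℤ)) (x y : ℝ) : ev2 (add2 l m) x y = ev2 l x y + ev2 m x y := by
  induction l generalizing m with
  | nil => simp [add2, ev2]
  | cons a l ih =>
    cases m with
    | nil => simp [add2, ev2]
    | cons b m => simp only [add2, ev2, ih, ev_add]; ring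

theorem ev2_smul (c : ℤ) (l : List (List ℤ)) (x y : ℝ) : ev2 (smul2 c l) x y = c * ev2 l x y := by
  induction l with
  | nil => simp [smul2, ev2]
  | cons a l ih => simp only [smul2, ev2, ih, ev_smul]; ring

theorem ev2_lin (i j : ℤ) (l : List (List ℤ)) (x y : ℝ) :
    ev2 (lin2 i j l) x y = (i + j * x) * ev2 l x y := by
  simp only [lin2, ev2_add, ev2_smul, ev2, ev]; ring

theorem ev2_linY (i j : ℤ) (l : List (List ℤ)) (x y : ℝ) :
    ev2 (linY i j l) x y = (i + j * y) * ev2 l x y := by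
  induction l with
  | nil => simp [linY, ev2]
  | cons a l ih => simp only [linY, ev2, ih, ev_lin]; ring

theorem ev2_lin4 (a b c d : ℤ) (l : List (List ℤ)) (x y : ℝ) :
    ev2 (lin4 a b c d l) x y = (a + b * x) * (c + d * y) * ev2 l x y := by
  simp only [lin4, ev2_lin, ev2_linY]; ring

theorem ev2_nonneg {M : List (List ℤ)} (h : ∀ r ∈ M, ∀ c ∈ r, 0 ≤ c) {x y : ℝ} (hx : 0 ≤ x)
    (hy : 0 ≤ y) : 0 ≤ ev2 M x y := by
  induction M with
  | nil => simp [ev2]
  | cons a l ih =>
    simp only [ev2]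
    have h1 := ih fun r hr => h r (List.mem_cons_of_mem _ hr)
    have h2 : 0 ≤ ev a y := by
      refine ev_nonneg ?_ hy
      rw [List.all_eq_true]
      intro c hc
      rw [decide_eq_true_eq]
      exact h a (List.mem_cons_self ..) c hc
    positivity

/-- homogeneous substitution of `(a + b t) (c + d u) / S`, `S = N (1 + t) N (1 + u)`:
coefficients of `S ^ (length - 1) * l ((a + b t) (c + d u) / S)` and `S ^ length` -/
def hh (a b c d N : ℤ) : List ℤ → List (List ℤ) × List (List ℤ)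
  | [] => ([], [[1]])
  | e :: l => (add2 (smul2 e (hh a b c d N l).2) (lin4 a b c d (hh a b c d N l).1),
      lin4 N N N N (hh a b c d N l).2)

/-- divided difference: `(l(x) - l(y)) / (x - y)` -/
def dd : List ℤ → ℝ → ℝ → ℝ
  | [], _, _ => 0
  | _ :: l, x, y => ev l y + x * dd l x y

/-- homogeneous divided difference -/
def hd (i j k l N : ℤ) : List ℤ → List (List ℤ)
  | [] => []
  | _ :: L => add2 (hh N N k l N L).1 (lin4 i j N N (hd i j k l N L))

theorem mul_dd (l : List ℤ) (x y : ℝ) : (x - y) * dd l x y = ev l x - ev l y := by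
  induction l with
  | nil => simp [dd, ev]
  | cons a l ih =>
    simp only [dd, ev]
    linear_combination x * ih

theorem ev2_hh (a b c d N : ℤ) (l : List ℤ) {t u S A : ℝ}
    (hS : S = (N + N * t) * (N + N * u)) (hA : A = (a + b * t) * (c + d * u)) (hS0 : S ≠ 0) :
    ev2 (hh a b c d N l).2 t u = S ^ l.length ∧
    ev2 (hh a b c d N l).1 t u * S = S ^ l.length * ev l (A / S) := by
  induction l with
  | nil => simp [hh, ev2, ev]
  | cons e l ih =>
    obtain ⟨h1, h2⟩ := ih
    constructor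
    · simp only [hh, ev2_lin4, h1, List.length_cons, pow_succ, ← hS]; ring
    · simp only [hh, ev2_add, ev2_smul, ev2_lin4, h1, List.length_cons, pow_succ, ev, ← hA]
      rw [add_mul, mul_assoc A, h2]
      generalize ev l (A / S) = L
      field_simp

theorem ev2_hd (i j k l N : ℤ) (L : List ℤ) {t u S P Q : ℝ}
    (hS : S = (N + N * t) * (N + N * u)) (hP : P = (i + j * t) * (N + N * u))
    (hQ : Q = (N + N * t) * (k + l * u)) (hS0 : S ≠ 0) :
    ev2 (hd i j k l N L) t u * S ^ 2 = S ^ L.length * dd L (P / S) (Q / S) := by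
  induction L with
  | nil => simp [hd, ev2, dd]
  | cons e L ih =>
    have h2 := (ev2_hh N N k l N L hS hQ hS0).2
    simp only [hd, ev2_add, ev2_lin4, List.length_cons, pow_succ, dd, ← hP]
    rw [pow_two] at ih
    calc (ev2 (hh N N k l N L).1 t u + P * ev2 (hd i j k l N L) t u) * (S ^ 0 * S * S)
        = (ev2 (hh N N k l N L).1 t u * S) * S + P * (ev2 (hd i j k l N L) t u * (S * S)) := by
          ring
      _ = _ := by
          rw [h2, ih]
          generalize ev L (Q / S) = L1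
          generalize dd L (P / S) (Q / S) = L2
          field_simp

/-! ### packed evaluation -/

def evZ2 : List (List ℤ) → ℤ → ℤ → ℤ
  | [], _, _ => 0
  | c :: M, T, U => evZ c U + T * evZ2 M T U

def nrm2 (T U : ℤ) : List (List ℤ) → ℤ
  | [] => 0
  | c :: M => nrm U c + T * nrm2 T U M

/-- value, power, divided difference -/
def hdZ (P Q S : ℤ) : List ℤ → ℤ × ℤ × ℤ
  | [] => (0, 1, 0)
  | c :: l => (c * (hdZ P Q S l).2.1 + Q * (hdZ P Q S l).1, S * (hdZ P Q S l).2.1,
      (hdZ P Q S l).1 + P * (hdZ P Q S l).2.2)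

def dig2 (T U : ℤ) (m : ℕ) : ℕ → ℤ → Bool
  | 0, Z => decide (Z = 0)
  | k + 1, Z => decide (2 * (Z % T) < T) && (dig U m (Z % T) && dig2 T U m k (Z / T))

/-- the same test on natural numbers -/
def digN2 (T U : ℕ) (m : ℕ) : ℕ → ℕ → Bool
  | 0, Z => Nat.beq Z 0
  | k + 1, Z => force (Z % T) fun d => Nat.blt (2 * d) T && (digN U m d &&
      force (Z / T) fun Z' => digN2 T U m k Z')

theorem dig2_of_digN2 {T U : ℕ} {m k Z : ℕ} (h : digN2 T U m k Z = true) :
    dig2 T U m k Z = true := by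
  induction k generalizing Z with
  | zero =>
    simp only [digN2, Nat.beq_eq] at h
    simp [dig2, h]
  | succ k ih =>
    simp only [digN2, force_eq, Bool.and_eq_true, Nat.blt_eq] at h
    obtain ⟨h1, h2, h3⟩ := h
    simp only [dig2, Bool.and_eq_true, decide_eq_true_eq]
    refine ⟨by exact_mod_cast h1, ?_, ?_⟩
    · have := dig_of_digN h2
      rwa [Int.natCast_emod] at this
    · have := ih h3
      rwa [Int.natCast_div] at this

theorem dig2_zero (T U Z : ℤ) (m : ℕ) : dig2 T U m 0 Z = true ↔ Z = 0 := by simp [dig2]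

theorem dig2_succ (T U Z : ℤ) (m k : ℕ) :
    dig2 T U m (k + 1) Z = true ↔
      2 * (Z % T) < T ∧ dig U m (Z % T) = true ∧ dig2 T U m k (Z / T) = true := by simp [dig2]

theorem evZ2_add (l m : List (List ℤ)) (T U : ℤ) :
    evZ2 (add2 l m) T U = evZ2 l T U + evZ2 m T U := by
  induction l generalizing m with
  | nil => simp [add2, evZ2]
  | cons a l ih =>
    cases m with
    | nil => simp [add2, evZ2]
    | cons b m => simp only [add2, evZ2, ih, evZ_add]; ring

theorem evZ2_smul (c : ℤ) (l : List (List ℤ)) (T U : ℤ) :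
    evZ2 (smul2 c l) T U = c * evZ2 l T U := by
  induction l with
  | nil => simp [smul2, evZ2]
  | cons a l ih => simp only [smul2, evZ2, ih, evZ_smul]; ring

theorem evZ2_lin4 (a b c d : ℤ) (l : List (List ℤ)) (T U : ℤ) :
    evZ2 (lin4 a b c d l) T U = (a + b * T) * (c + d * U) * evZ2 l T U := by
  have h : evZ2 (linY c d l) T U = (c + d * U) * evZ2 l T U := by
    induction l with
    | nil => simp [linY, evZ2]
    | cons a l ih => simp only [linY, evZ2, ih, evZ_lin]; ring
  simp only [lin4, lin2, evZ2_add, evZ2_smul, evZ2, evZ, h]; ring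

theorem evZ2_hh (a b c d N T U : ℤ) (l : List ℤ) :
    evZ2 (hh a b c d N l).1 T U =
      (homZ ((a + b * T) * (c + d * U)) ((N + N * T) * (N + N * U)) l).1 ∧
    evZ2 (hh a b c d N l).2 T U =
      (homZ ((a + b * T) * (c + d * U)) ((N + N * T) * (N + N * U)) l).2 := by
  induction l with
  | nil => simp [hh, homZ, evZ, evZ2]
  | cons e l ih =>
    obtain ⟨h1, h2⟩ := ih
    constructor
    · simp only [hh, homZ, evZ2_add, evZ2_smul, evZ2_lin4, h1, h2]
    · simp only [hh, homZ, evZ2_lin4, h2]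

theorem hdZ_homZ (P Q S : ℤ) (l : List ℤ) :
    (hdZ P Q S l).1 = (homZ Q S l).1 ∧ (hdZ P Q S l).2.1 = (homZ Q S l).2 := by
  induction l with
  | nil => simp [hdZ, homZ]
  | cons c l ih => simp only [hdZ, homZ, ih.1, ih.2, and_self]

theorem evZ2_hd (i j k l N T U : ℤ) (L : List ℤ) :
    evZ2 (hd i j k l N L) T U =
      (hdZ ((i + j * T) * (N + N * U)) ((N + N * T) * (k + l * U))
        ((N + N * T) * (N + N * U)) L).2.2 := by
  induction L with
  | nil => simp [hd, hdZ, evZ2]
  | cons c L ih =>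
    simp only [hd, hdZ, evZ2_add, evZ2_lin4, ih, (evZ2_hh N N k l N T U L).1,
      (hdZ_homZ _ _ _ L).1]

theorem nrm2_nonneg {T U : ℤ} (hT : 0 ≤ T) (hU : 0 ≤ U) (l : List (List ℤ)) :
    0 ≤ nrm2 T U l := by
  induction l with
  | nil => simp [nrm2]
  | cons a l ih =>
    simp only [nrm2]
    have := nrm_nonneg hU a
    positivity

theorem nrm2_add {T U : ℤ} (hT : 0 ≤ T) (hU : 0 ≤ U) (l m : List (List ℤ)) :
    nrm2 T U (add2 l m) ≤ nrm2 T U l + nrm2 T U m := by
  induction l generalizing m with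
  | nil => simp [add2, nrm2]
  | cons a l ih =>
    cases m with
    | nil => simp [add2, nrm2]
    | cons b m =>
      simp only [add2, nrm2]
      have h1 := mul_le_mul_of_nonneg_left (ih m) hT
      have h2 := nrm_add hU a b
      linarith

theorem nrm2_smul (T U : ℤ) (c : ℤ) (l : List (List ℤ)) :
    nrm2 T U (smul2 c l) = (c.natAbs : ℤ) * nrm2 T U l := by
  induction l with
  | nil => simp [smul2, nrm2]
  | cons a l ih => simp only [smul2, nrm2, ih, nrm_smul]; ring

theorem nrm2_lin4 {T U : ℤ} (hT : 0 ≤ T) (hU : 0 ≤ U) {a b c d : ℤ} (ha : 0 ≤ a) (hb : 0 ≤ b)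
    (hc : 0 ≤ c) (hd : 0 ≤ d) (l : List (List ℤ)) :
    nrm2 T U (lin4 a b c d l) ≤ (a + b * T) * (c + d * U) * nrm2 T U l := by
  have h0 : nrm2 T U (linY c d l) ≤ (c + d * U) * nrm2 T U l := by
    induction l with
    | nil => simp [linY, nrm2]
    | cons e l ih =>
      simp only [linY, nrm2]
      have h1 := nrm_lin hU hc hd e
      have h2 := mul_le_mul_of_nonneg_left ih hT
      linarith
  have h := nrm2_add hT hU (smul2 a (linY c d l)) ([] :: smul2 b (linY c d l))
  simp only [nrm2, nrm2_smul, nrm, zero_add, Int.natAbs_of_nonneg ha,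
    Int.natAbs_of_nonneg hb] at h
  calc nrm2 T U (lin4 a b c d l) ≤ _ := h
    _ = (a + b * T) * nrm2 T U (linY c d l) := by ring
    _ ≤ (a + b * T) * ((c + d * U) * nrm2 T U l) :=
        mul_le_mul_of_nonneg_left h0 (by positivity)
    _ = _ := by ring

theorem nrm2_hh {a b c d N T U : ℤ} (ha : 0 ≤ a) (hb : 0 ≤ b) (hc : 0 ≤ c) (hd : 0 ≤ d)
    (hN : 0 ≤ N) (hT : 0 ≤ T) (hU : 0 ≤ U) (l : List ℤ) :
    nrm2 T U (hh a b c d N l).1 ≤
      (homZ ((a + b * T) * (c + d * U)) ((N + N * T) * (N + N * U)) (absl l)).1 ∧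
    nrm2 T U (hh a b c d N l).2 ≤
      (homZ ((a + b * T) * (c + d * U)) ((N + N * T) * (N + N * U)) (absl l)).2 := by
  induction l with
  | nil => simp [hh, homZ, absl, nrm, nrm2]
  | cons e l ih =>
    obtain ⟨h1, h2⟩ := ih
    constructor
    · simp only [hh, homZ, absl]
      refine (nrm2_add hT hU _ _).trans ?_
      rw [nrm2_smul]
      have h3 := nrm2_lin4 hT hU ha hb hc hd (hh a b c d N l).1
      have h4 : (a + b * T) * (c + d * U) * nrm2 T U (hh a b c d N l).1 ≤
          (a + b * T) * (c + d * U) *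
            (homZ ((a + b * T) * (c + d * U)) ((N + N * T) * (N + N * U)) (absl l)).1 :=
        mul_le_mul_of_nonneg_left h1 (by positivity)
      have h5 : (e.natAbs : ℤ) * nrm2 T U (hh a b c d N l).2 ≤ (e.natAbs : ℤ) *
            (homZ ((a + b * T) * (c + d * U)) ((N + N * T) * (N + N * U)) (absl l)).2 :=
        mul_le_mul_of_nonneg_left h2 (by positivity)
      linarith
    · simp only [hh, homZ, absl]
      refine (nrm2_lin4 hT hU hN hN hN hN _).trans ?_
      exact mul_le_mul_of_nonneg_left h2 (by positivity)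

theorem nrm2_hd {i j k l N T U : ℤ} (hi : 0 ≤ i) (hj : 0 ≤ j) (hk : 0 ≤ k) (hl : 0 ≤ l)
    (hN : 0 ≤ N) (hT : 0 ≤ T) (hU : 0 ≤ U) (L : List ℤ) :
    nrm2 T U (hd i j k l N L) ≤
      (hdZ ((i + j * T) * (N + N * U)) ((N + N * T) * (k + l * U))
        ((N + N * T) * (N + N * U)) (absl L)).2.2 := by
  induction L with
  | nil => simp [hd, hdZ, absl, nrm2]
  | cons c L ih =>
    simp only [hd, hdZ, absl]
    refine (nrm2_add hT hU _ _).trans ?_
    rw [(hdZ_homZ _ _ _ (absl L)).1]
    have h1 := (nrm2_hh hN hN hk hl hN hT hU L).1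
    have h2 := nrm2_lin4 hT hU hi hj hN hN (hd i j k l N L)
    have h3 : (i + j * T) * (N + N * U) * nrm2 T U (hd i j k l N L) ≤
        (i + j * T) * (N + N * U) * (hdZ ((i + j * T) * (N + N * U)) ((N + N * T) * (k + l * U))
          ((N + N * T) * (N + N * U)) (absl L)).2.2 :=
      mul_le_mul_of_nonneg_left ih (by positivity)
    linarith

theorem nrm_le_nrm2 {T U : ℤ} (hT : 1 ≤ T) (hU : 0 ≤ U) {l : List (List ℤ)} {c : List ℤ}
    (hc : c ∈ l) : nrm U c ≤ nrm2 T U l := by
  induction l with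
  | nil => simp at hc
  | cons a l ih =>
    simp only [nrm2]
    have h0 := nrm2_nonneg (by linarith : 0 ≤ T) hU l
    have h1 := nrm_nonneg hU a
    rcases List.mem_cons.1 hc with rfl | h
    · have : 0 ≤ T * nrm2 T U l := by positivity
      linarith
    · have := ih h
      nlinarith

theorem abs_evZ_le {T : ℤ} (hT : 0 ≤ T) (l : List ℤ) : |evZ l T| ≤ nrm T l := by
  induction l with
  | nil => simp [evZ, nrm]
  | cons a l ih =>
    simp only [evZ, nrm]
    refine (abs_add_le _ _).trans ?_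
    rw [abs_mul, abs_of_nonneg hT, Int.natCast_natAbs]
    have := mul_le_mul_of_nonneg_left ih hT
    linarith

theorem all_of_dig2 {T U : ℤ} {m : ℕ} {h : List (List ℤ)} (hT : 0 < T)
    (hb : ∀ r ∈ h, ∀ c ∈ r, 2 * (c.natAbs : ℤ) < U) (hr : ∀ r ∈ h, 2 * |evZ r U| < T) {k : ℕ}
    (hd : dig2 T U m k (evZ2 h T U) = true) : ∀ r ∈ h, ∀ c ∈ r, 0 ≤ c := by
  induction h generalizing k with
  | nil => simp
  | cons r h ih =>
    have hc := hr r (List.mem_cons_self ..)
    have hb' : ∀ r ∈ h, ∀ c ∈ r, 2 * (c.natAbs : ℤ) < U :=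
      fun d hd => hb d (List.mem_cons_of_mem _ hd)
    have hr' : ∀ r ∈ h, 2 * |evZ r U| < T := fun d hd => hr d (List.mem_cons_of_mem _ hd)
    have key : (∃ m', dig U m' (evZ r U) = true) ∧ ∃ k', dig2 T U m k' (evZ2 h T U) = true := by
      cases k with
      | zero =>
        rw [dig2_zero, evZ2] at hd
        have h1 : evZ r U = 0 := by
          have h2 : T ∣ evZ r U := ⟨-evZ2 h T U, by linarith⟩
          by_contra h3
          have := Int.le_of_dvd (abs_pos.2 h3) ((dvd_abs _ _).2 h2)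
          omega
        refine ⟨⟨0, by simp [dig, h1]⟩, 0, ?_⟩
        rw [h1, zero_add] at hd
        rw [dig2_zero]
        rcases mul_eq_zero.1 hd with h4 | h4
        · omega
        · exact h4
      | succ k =>
        rw [dig2_succ, evZ2] at hd
        obtain ⟨h1, h2, h2'⟩ := hd
        rw [Int.add_mul_emod_self_left] at h1 h2
        have hc1 : evZ r U ≤ |evZ r U| := le_abs_self _
        have hc2 : -evZ r U ≤ |evZ r U| := neg_le_abs _
        have h3 : 0 ≤ evZ r U := by
          by_contra h4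
          have h5 : evZ r U % T = evZ r U + T := by
            rw [← Int.add_emod_right, Int.emod_eq_of_lt (by omega) (by omega)]
          omega
        have h6 : evZ r U % T = evZ r U := Int.emod_eq_of_lt h3 (by omega)
        rw [h6] at h2
        refine ⟨⟨m, h2⟩, k, ?_⟩
        rwa [Int.add_mul_ediv_left _ _ hT.ne', Int.ediv_eq_zero_of_lt h3 (by omega), zero_add]
          at h2'
    obtain ⟨⟨m', h1⟩, k', h2⟩ := key
    intro d hd
    rcases List.mem_cons.1 hd with rfl | hd
    · exact all_of_dig (hb d (List.mem_cons_self ..)) h1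
    · exact ih hb' hr' h2 d hd

/-! ### the test -/

/-- the function `E` -/
noncomputable def EE (g g' : List ℤ) (p q : ℝ) : ℝ :=
  ev g' ((1 - p) * (1 - q)) - dd g p q - ev g (p * q)

/-- the transformed polynomial -/
def HE (N i j k l : ℤ) (g g' : List ℤ) : List (List ℤ) :=
  add2 (hh (N - i) (N - j) (N - k) (N - l) N g').1
    (smul2 (-1) (add2 (lin4 N N N N (hd i j k l N g)) (hh i j k l N g).1))

/-- its value at integers -/
def HEZ (N T U i j k l : ℤ) (g g' : List ℤ) : ℤ :=
  (homZ ((N - i + (N - j) * T) * (N - k + (N - l) * U)) ((N + N * T) * (N + N * U)) g').1 -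
    ((N + N * T) * (N + N * U) * (hdZ ((i + j * T) * (N + N * U)) ((N + N * T) * (k + l * U))
        ((N + N * T) * (N + N * U)) g).2.2 +
      (homZ ((i + j * T) * (k + l * U)) ((N + N * T) * (N + N * U)) g).1)

/-- a bound for its norm -/
def HEB (N T U i j k l : ℤ) (g g' : List ℤ) : ℤ :=
  (homZ ((N - i + (N - j) * T) * (N - k + (N - l) * U)) ((N + N * T) * (N + N * U))
      (absl g')).1 +
    ((N + N * T) * (N + N * U) * (hdZ ((i + j * T) * (N + N * U)) ((N + N * T) * (k + l * U))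
        ((N + N * T) * (N + N * U)) (absl g)).2.2 +
      (homZ ((i + j * T) * (k + l * U)) ((N + N * T) * (N + N * U)) (absl g)).1)

theorem evZ2_HE (N T U i j k l : ℤ) (g g' : List ℤ) :
    evZ2 (HE N i j k l g g') T U = HEZ N T U i j k l g g' := by
  simp only [HE, HEZ, evZ2_add, evZ2_smul, evZ2_lin4, (evZ2_hh _ _ _ _ _ _ _ _).1, evZ2_hd]
  ring

theorem nrm2_HE {N T U i j k l : ℤ} (hi : 0 ≤ i) (hj : 0 ≤ j) (hk : 0 ≤ k) (hl : 0 ≤ l)
    (hN : 0 ≤ N) (hiN : i ≤ N) (hjN : j ≤ N) (hkN : k ≤ N) (hlN : l ≤ N) (hT : 0 ≤ T)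
    (hU : 0 ≤ U) (g g' : List ℤ) :
    nrm2 T U (HE N i j k l g g') ≤ HEB N T U i j k l g g' := by
  have h1 := (nrm2_hh (sub_nonneg.2 hiN) (sub_nonneg.2 hjN) (sub_nonneg.2 hkN)
    (sub_nonneg.2 hlN) hN hT hU g').1
  have h2 := (nrm2_hh hi hj hk hl hN hT hU g).1
  have h3 := nrm2_hd hi hj hk hl hN hT hU g
  have h4 := nrm2_lin4 hT hU hN hN hN hN (hd i j k l N g)
  have h5 := mul_le_mul_of_nonneg_left h3
    (by positivity : 0 ≤ (N + N * T) * (N + N * U))
  have h6 := nrm2_add hT hU (lin4 N N N N (hd i j k l N g)) (hh i j k l N g).1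
  have h7 := nrm2_add hT hU (hh (N - i) (N - j) (N - k) (N - l) N g').1
    (smul2 (-1) (add2 (lin4 N N N N (hd i j k l N g)) (hh i j k l N g).1))
  rw [nrm2_smul] at h7
  simp only [Int.natAbs_neg, Int.natAbs_one, Nat.cast_one, one_mul] at h7
  unfold HE HEB
  linarith

/-- test for positivity of `E` on `[i / N, j / N) × [k / N, l / N)`; `U` and `T` are large
numbers, `m` a bound for the number of digits -/
def chk2 (N : ℤ) (T U : ℕ) (m : ℕ) (g g' : List ℤ) (i j k l : ℤ) : Bool :=
  decide (0 < N) && (decide (0 ≤ i) && (decide (i < j) && (decide (j ≤ N) && (decide (0 ≤ k) &&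
    (decide (k < l) && (decide (l ≤ N) && (decide (1 ≤ T) &&
    (decide (g'.length = g.length) &&
    (decide (2 * HEB N 1 1 i j k l g g' < U) &&
    (decide (2 * HEB N 1 U i j k l g g' < T) &&
    (decide (0 ≤ HEZ N T U i j k l g g') &&
      force (HEZ N T U i j k l g g').toNat fun Z => digN2 T U m m Z)))))))))))

theorem chk2_sound {N : ℤ} {T U : ℕ} {m : ℕ} {g g' : List ℤ} {i j k l : ℤ}
    (h : chk2 N T U m g g' i j k l = true) {x y : ℝ}
    (h1 : (i : ℝ) / N ≤ x) (h2 : x < (j : ℝ) / N) (h3 : (k : ℝ) / N ≤ y) (h4 : y < (l : ℝ) / N) :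
    0 ≤ EE g g' x y := by
  simp only [chk2, Bool.and_eq_true, decide_eq_true_eq, force_eq] at h
  obtain ⟨hN, hi, hij, hjN, hk, hkl, hlN, hT, hlen, hb1, hb2, hpos0, hdig⟩ := h
  have hU : (0 : ℤ) ≤ U := Int.natCast_nonneg _
  have hdig := dig2_of_digN2 hdig
  rw [Int.toNat_of_nonneg hpos0] at hdig
  have hj := hi.trans hij.le
  have hl := hk.trans hkl.le
  have hiN := hij.le.trans hjN
  have hkN := hkl.le.trans hlN
  have hpos : ∀ r ∈ HE N i j k l g g', ∀ c ∈ r, 0 ≤ c := by
    refine all_of_dig2 (T := T) (U := U) (m := m) (k := m) (by linarith) ?_ ?_ ?_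
    · intro r hr c hc
      have e1 := natAbs_le_nrm (le_refl (1 : ℤ)) hc
      have e0 := nrm_le_nrm2 (le_refl (1 : ℤ)) zero_le_one hr
      have e2 := nrm2_HE hi hj hk hl hN.le hiN hjN hkN hlN zero_le_one zero_le_one g g'
      linarith
    · intro r hr
      have e1 := abs_evZ_le hU r
      have e0 := nrm_le_nrm2 (le_refl (1 : ℤ)) hU hr
      have e2 := nrm2_HE hi hj hk hl hN.le hiN hjN hkN hlN zero_le_one hU g g'
      linarith
    · rw [evZ2_HE]
      exact hdig
  obtain ⟨t, ht, rfl⟩ := subst_eq hN hij h1 h2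
  obtain ⟨u, hu, rfl⟩ := subst_eq hN hkl h3 h4
  have hN' : (0 : ℝ) < N := by exact_mod_cast hN
  have hs : 0 < (N : ℝ) + N * t := by positivity
  have hs' : 0 < (N : ℝ) + N * u := by positivity
  set S : ℝ := (N + N * t) * (N + N * u) with hS
  have hS0 : 0 < S := by positivity
  have e1 := (ev2_hh (N - i) (N - j) (N - k) (N - l) N g' (t := t) (u := u) hS rfl hS0.ne').2
  have e2 := (ev2_hh i j k l N g (t := t) (u := u) hS rfl hS0.ne').2
  have e3 := ev2_hd i j k l N g (t := t) (u := u) hS rfl rfl hS0.ne'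
  have e0 := ev2_nonneg hpos ht hu
  have a0 : (N : ℝ) * (1 + t) = N + N * t := by ring
  have a0' : (N : ℝ) * (1 + u) = N + N * u := by ring
  have a1 : ((i : ℝ) + j * t) / (N * (1 + t)) * ((k + l * u) / (N * (1 + u))) =
      (i + j * t) * (k + l * u) / S := by
    rw [a0, a0', hS, div_mul_div_comm]
  have a2 : (1 - ((i : ℝ) + j * t) / (N * (1 + t))) * (1 - (k + l * u) / (N * (1 + u))) =
      (((N - i : ℤ) : ℝ) + ((N - j : ℤ) : ℝ) * t) * (((N - k : ℤ) : ℝ) + ((N - l : ℤ) : ℝ) * u) /
        S := by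
    rw [a0, a0', hS, one_sub_div hs.ne', one_sub_div hs'.ne', div_mul_div_comm]
    push_cast
    congr 1
    ring
  have a3 : ((i : ℝ) + j * t) / (N * (1 + t)) = (i + j * t) * (N + N * u) / S := by
    rw [a0, hS, mul_div_mul_right _ _ hs'.ne']
  have a4 : ((k : ℝ) + l * u) / (N * (1 + u)) = (N + N * t) * (k + l * u) / S := by
    rw [a0', hS, mul_div_mul_left _ _ hs.ne']
  have e4 : ev2 (HE N i j k l g g') t u * S = S ^ g.length *
      EE g g' ((i + j * t) / (N * (1 + t))) ((k + l * u) / (N * (1 + u))) := by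
    unfold HE EE
    rw [a2, a1]
    rw [a3, a4]
    rw [hlen] at e1
    simp only [ev2_add, ev2_smul, ev2_lin4, ← hS]
    push_cast at e1 ⊢
    linear_combination e1 - e2 - e3
  have e5 : 0 ≤ S ^ g.length *
      EE g g' ((i + j * t) / (N * (1 + t))) ((k + l * u) / (N * (1 + u))) := by
    rw [← e4]; positivity
  exact nonneg_of_mul_nonneg_right e5 (by positivity)

end Pool.Agent.H14Sort
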