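import Pool.Agent.H14Sort.Coll

/-! # MP_be3412_lc: the recursion

`g m = 1.266 m log₂ m - 12 m + 12 √m` is a lower bound for the size of every sorting network on
`m` lines: by `restrict_sorts`, `|N| ≥ coll N x + g (K x) + g (m - K x)` for every input `x` which
is not constant; sum over `x`. -/

open Finset

namespace Pool.Agent.H14Sort

/-- the lower bound -/
noncomputable def g (m : ℝ) : ℝ := 1.266 * (m * Real.logb 2 m) - 12 * m + 12 * √m

theorem g_zero : g 0 = 0 := by simp [g]

/-- for small `m` the bound is trivial -/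
theorem g_small {m : ℝ} (h1 : 1 ≤ m) (h2 : m ≤ 27) : g m ≤ 0 := by
  set z : ℝ := √√m with hz
  have hm0 : 0 ≤ m := by linarith
  have hz2 : z ^ 2 = √m := Real.sq_sqrt (Real.sqrt_nonneg _)
  have hz4 : z ^ 4 = m := by
    rw [show z ^ 4 = (z ^ 2) ^ 2 by ring, hz2, Real.sq_sqrt hm0]
  have hz0 : 0 ≤ z := Real.sqrt_nonneg _
  have hz1 : 1 ≤ z := by
    rw [hz, Real.one_le_sqrt, Real.one_le_sqrt]
    exact h1
  have hzu : z ≤ 2.28 := by
    by_contra h
    rw [not_le] at h
    have : (2.28 : ℝ) ^ 4 < z ^ 4 := by gcongr
    rw [hz4] at this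
    norm_num at this
    linarith
  have hlog : Real.log m = 4 * Real.log z := by
    rw [← hz4, Real.log_pow]; push_cast; ring
  have hlz : Real.log z ≤ z - 1 := Real.log_le_sub_one_of_pos (by linarith)
  have hlz0 : 0 ≤ Real.log z := Real.log_nonneg hz1
  have hl2 := Real.log_two_gt_d9
  have hlb : 1.266 * Real.logb 2 m ≤ 7.306 * (z - 1) := by
    rw [Real.logb, hlog, mul_div_assoc', div_le_iff₀ (by linarith)]
    nlinarith
  unfold g
  rw [← hz2]
  have h3 : 1.266 * (m * Real.logb 2 m) ≤ m * (7.306 * (z - 1)) := by nlinarith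
  have h4 : m * (7.306 * (z - 1)) - 12 * m + 12 * z ^ 2 =
      z ^ 2 * ((z - 1) * (7.306 * z ^ 2 - 12 * z - 12)) := by
    rw [← hz4]; ring
  have h5 : 7.306 * z ^ 2 - 12 * z - 12 ≤ 0 := by nlinarith
  have h6 : z ^ 2 * ((z - 1) * (7.306 * z ^ 2 - 12 * z - 12)) ≤ 0 :=
    mul_nonpos_of_nonneg_of_nonpos (by positivity)
      (mul_nonpos_of_nonneg_of_nonpos (by linarith) h5)
  linarith

theorem mul_logb_ge {k h : ℝ} (hk : 0 ≤ k) (hh : 0 < h) :
    k * Real.logb 2 h + (k - h) / Real.log 2 ≤ k * Real.logb 2 k := by
  have hl2 : 0 < Real.log 2 := Real.log_pos (by norm_num)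
  rcases hk.eq_or_lt with rfl | hk
  · rw [zero_mul, zero_mul, zero_add, zero_sub]
    exact div_nonpos_of_nonpos_of_nonneg (by linarith) hl2.le
  · have h1 := Real.one_sub_inv_le_log_of_pos (div_pos hk hh)
    rw [Real.log_div hk.ne' hh.ne', inv_div] at h1
    have h2 : k - h ≤ k * (Real.log k - Real.log h) := by
      have := mul_le_mul_of_nonneg_left h1 hk.le
      rwa [mul_sub, mul_one, mul_div_cancel₀ _ hk.ne'] at this
    rw [Real.logb, Real.logb, mul_div_assoc', mul_div_assoc', ← add_div]
    gcongr
    linarith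

theorem sqrt_ge {h y : ℝ} (hh : 0 ≤ h) (hy : -1 ≤ y) :
    √h * ((2 - y) * (1 + y) / 2) ≤ √(h * (1 + y)) := by
  rw [Real.sqrt_mul hh]
  refine mul_le_mul_of_nonneg_left ?_ (Real.sqrt_nonneg _)
  set t := √(1 + y) with ht
  have ht0 : 0 ≤ t := Real.sqrt_nonneg _
  have ht2 : t ^ 2 = 1 + y := Real.sq_sqrt (by linarith)
  have e : (2 - y) * (1 + y) / 2 = (3 - t ^ 2) * t ^ 2 / 2 := by rw [ht2]; ring
  rw [e]
  nlinarith [mul_nonneg (mul_nonneg ht0 (sq_nonneg (t - 1))) (by linarith : 0 ≤ t + 2)]

theorem g_add_ge {m y : ℝ} (hm : 0 < m) (h1 : -1 ≤ y) (h2 : y ≤ 1) :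
    1.266 * (m * (Real.logb 2 m - 1)) - 12 * m + 12 * (√(m / 2) * (2 - y ^ 2)) ≤
      g (m / 2 * (1 + y)) + g (m / 2 * (1 - y)) := by
  have hh : 0 < m / 2 := by linarith
  have a1 := mul_logb_ge (k := m / 2 * (1 + y)) (h := m / 2)
    (mul_nonneg hh.le (by linarith)) hh
  have a2 := mul_logb_ge (k := m / 2 * (1 - y)) (h := m / 2)
    (mul_nonneg hh.le (by linarith)) hh
  have b1 := sqrt_ge hh.le h1
  have b2 := sqrt_ge (y := -y) hh.le (by linarith)
  rw [← sub_eq_add_neg, sub_neg_eq_add] at b2
  have hl : Real.logb 2 (m / 2) = Real.logb 2 m - 1 := by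
    rw [Real.logb_div hm.ne' (by norm_num), Real.logb_self_eq_one (by norm_num)]
  rw [hl] at a1 a2
  have a3 : m / 2 * (1 + y) * (Real.logb 2 m - 1) + (m / 2 * (1 + y) - m / 2) / Real.log 2 +
      (m / 2 * (1 - y) * (Real.logb 2 m - 1) + (m / 2 * (1 - y) - m / 2) / Real.log 2) =
      m * (Real.logb 2 m - 1) := by ring
  have b3 : √(m / 2) * ((2 - y) * (1 + y) / 2) + √(m / 2) * ((2 + y) * (1 - y) / 2) =
      √(m / 2) * (2 - y ^ 2) := by ring
  unfold g
  linarith

theorem K_eq_card {ι : Type*} [Fintype ι] (x : ι → Bool) :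
    K x = Fintype.card {i // x i = true} := by
  unfold K bit
  rw [Finset.sum_boole, Fintype.card_subtype]

theorem card_false {ι : Type*} [Fintype ι] (x : ι → Bool) :
    (Fintype.card {i // x i = false} : ℝ) = Fintype.card ι - K x := by
  have h : Fintype.card {i // x i = false} + Fintype.card {i // x i = true} = Fintype.card ι := by
    classical
    rw [Fintype.card_subtype, Fintype.card_subtype, ← Finset.card_union_of_disjoint]
    · rw [← Finset.card_univ]
      congr 1
      ext i
      simp only [mem_union, mem_filter, mem_univ, true_and, iff_true]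
      cases x i <;> simp
    · rw [Finset.disjoint_filter]
      intro i _ h
      simp [h]
  rw [K_eq_card, ← h]
  push_cast
  ring

theorem main : ∀ (m : ℕ) (ι : Type) [DecidableEq ι] [Fintype ι], Fintype.card ι = m →
    ∀ (N : List (ι × ι)) (ρ : ι → ℕ), SortsBy N ρ → g m ≤ N.length := by
  intro m
  induction m using Nat.strong_induction_on with
  | _ m ih =>
  intro ι _ _ hcard N ρ hN
  rcases Nat.lt_or_ge m 28 with hm | hm
  · have h0 : (0 : ℝ) ≤ N.length := Nat.cast_nonneg _
    rcases Nat.eq_zero_or_pos m with rfl | hpos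
    · rw [Nat.cast_zero, g_zero]; exact h0
    · exact (g_small (by exact_mod_cast hpos) (by exact_mod_cast Nat.le_of_lt_succ hm)).trans h0
  · by_contra hlt
    rw [not_le] at hlt
    have hmR : (28 : ℝ) ≤ m := by exact_mod_cast hm
    set L : ℝ := (N.length : ℝ) with hL
    -- pointwise upper bound
    have hup : ∀ x : ι → Bool, (coll N x : ℝ) + (g (K x) + g (m - K x)) ≤
        L + (if x = (fun _ => true) then g m - L else 0) +
          (if x = (fun _ => false) then g m - L else 0) := by
      intro x
      have p1 : 0 ≤ (if x = (fun _ => true) then g m - L else 0) := by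
        split_ifs
        · linarith
        · exact le_rfl
      have p2 : 0 ≤ (if x = (fun _ => false) then g m - L else 0) := by
        split_ifs
        · linarith
        · exact le_rfl
      by_cases hT : x = fun _ => true
      · have e1 : coll N x = 0 := coll_const (by rw [hT]; simp)
        have e2 : K x = m := by
          unfold K
          rw [hT]
          simp [bit, hcard]
        rw [e1, e2, sub_self, g_zero, if_pos hT]
        push_cast
        linarith
      · by_cases hB : x = fun _ => false
        · have e1 : coll N x = 0 := coll_const (by rw [hB]; simp)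
          have e2 : K x = 0 := by
            unfold K
            rw [hB]
            simp [bit]
          rw [e1, e2, sub_zero, g_zero, if_pos hB]
          push_cast
          linarith
        · obtain ⟨M, ρ', hlen, hs⟩ := restrict_sorts hN x
          have hkt : Fintype.card {i // x i = true} < m := by
            rw [← hcard, Fintype.card_subtype, ← Finset.card_univ]
            refine Finset.card_lt_card (Finset.filter_ssubset.2 ?_)
            by_contra hcon
            push Not at hcon
            exact hT (funext fun i => hcon i (mem_univ i))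
          have hkf : Fintype.card {i // x i = false} < m := by
            rw [← hcard, Fintype.card_subtype, ← Finset.card_univ]
            refine Finset.card_lt_card (Finset.filter_ssubset.2 ?_)
            by_contra hcon
            push Not at hcon
            exact hB (funext fun i => hcon i (mem_univ i))
          have i1 := ih _ hkt {i // x i = true} rfl (M true) (ρ' true) (hs true)
          have i2 := ih _ hkf {i // x i = false} rfl (M false) (ρ' false) (hs false)
          rw [← K_eq_card] at i1
          rw [card_false, hcard] at i2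
          have e3 : L = coll N x + (M true).length + (M false).length := by
            rw [hL, hlen]; push_cast; ring
          linarith
    have hsum := Finset.sum_le_sum fun (x : ι → Bool) (_ : x ∈ univ) => hup x
    have e5 : ∑ x : ι → Bool, (L + (if x = (fun _ => true) then g m - L else 0) +
          (if x = (fun _ => false) then g m - L else 0)) =
        2 ^ m * L + (g m - L) + (g m - L) := by
      rw [sum_add_distrib, sum_add_distrib, Finset.sum_ite_eq' univ, Finset.sum_ite_eq' univ]
      simp only [mem_univ, if_true, sum_const, card_univ, nsmul_eq_mul, card_cube, hcard]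
    rw [e5, sum_add_distrib] at hsum
    -- lower bounds
    have hcoll := coll_ge hN
    rw [hcard] at hcoll
    have hlow : ∀ x : ι → Bool, 1.266 * (m * (Real.logb 2 m - 1)) - 12 * m +
        12 * (√(m / 2) * (2 - (W x / m) ^ 2)) ≤ g (K x) + g (m - K x) := by
      intro x
      have hm0 : (0 : ℝ) < m := by linarith
      have hW1 : |W x| ≤ m := by
        unfold W
        refine (Finset.abs_sum_le_sum_abs _ _).trans ?_
        have : ∀ i, |eps (x i)| = 1 := by
          intro i
          cases x i <;> simp [eps]
        simp [this, hcard]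
      have hy1 : -1 ≤ W x / m := by
        rw [le_div_iff₀ hm0]
        linarith [neg_abs_le (W x)]
      have hy2 : W x / m ≤ 1 := by
        rw [div_le_one hm0]
        linarith [le_abs_self (W x)]
      have h := g_add_ge hm0 hy1 hy2
      have e1 : (m : ℝ) / 2 * (1 + W x / m) = K x := by
        rw [K_eq, hcard]; field_simp
      have e2 : (m : ℝ) / 2 * (1 - W x / m) = m - K x := by
        rw [K_eq, hcard]; field_simp; ring
      rwa [e1, e2] at h
    have hlow2 := Finset.sum_le_sum fun (x : ι → Bool) (_ : x ∈ univ) => hlow x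
    have e4 : ∑ x : ι → Bool, (1.266 * (m * (Real.logb 2 m - 1)) - 12 * m +
        12 * (√(m / 2) * (2 - (W x / m) ^ 2)) : ℝ) =
        2 ^ m * (1.266 * (m * (Real.logb 2 m - 1)) - 12 * m + 12 * (√(m / 2) * (2 - 1 / m))) := by
      have hm0 : (0 : ℝ) < m := by linarith
      simp only [sum_add_distrib, ← mul_sum, sum_sub_distrib, sum_const, card_univ, nsmul_eq_mul,
        card_cube, hcard, div_pow, ← sum_div, sum_W_sq]
      field_simp
    rw [e4] at hlow2
    have hsq : 0.7071 * √(m : ℝ) ≤ √((m : ℝ) / 2) := by
      rw [show (0.7071 : ℝ) = √(0.7071 ^ 2) by rw [Real.sqrt_sq (by norm_num)],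
        ← Real.sqrt_mul (by norm_num)]
      refine Real.sqrt_le_sqrt ?_
      nlinarith
    have hsm : 0 ≤ √(m : ℝ) := Real.sqrt_nonneg _
    have hinv : (1 : ℝ) / m ≤ 1 / 28 := by
      gcongr
    have hinv0 : (0 : ℝ) ≤ 1 / m := by positivity
    have hfin : 16.613 * √(m : ℝ) ≤ 12 * (√(m / 2) * (2 - 1 / m)) := by
      have h1 : (0.7071 * √(m : ℝ)) * (2 - 1 / 28) ≤ √(m / 2) * (2 - 1 / m) :=
        mul_le_mul hsq (by linarith) (by norm_num) (Real.sqrt_nonneg _)
      nlinarith
    have h2m : (4 : ℝ) ≤ 2 ^ m := by
      calc (4 : ℝ) = 2 ^ 2 := by norm_num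
        _ ≤ 2 ^ m := by gcongr <;> [norm_num; omega]
    have hall : 2 ^ m * g m ≤ 2 ^ m * L + (g m - L) + (g m - L) := by
      refine le_trans ?_ hsum
      refine le_trans ?_ (add_le_add hcoll hlow2)
      rw [← mul_add]
      refine mul_le_mul_of_nonneg_left ?_ (by positivity)
      unfold g
      linarith
    nlinarith

end Pool.Agent.H14Sort
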